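import Mathlib

/-!
Definitions used in the proof of the SHGH conjecture for `r ≥ C m` (helper file only).
-/

namespace Pool.Agent.P.MP_8707bd_ag

open MvPolynomial

/-- The homogeneous ideal of the point with coordinates `p`. -/
noncomputable def ptIdeal (p : Fin 3 → ℂ) : Ideal (MvPolynomial (Fin 3) ℂ) :=
  Ideal.span {L : MvPolynomial (Fin 3) ℂ | L.IsHomogeneous 1 ∧ MvPolynomial.eval p L = 0}

/-- Forms of degree `d` with multiplicity at least `μ i` at the point `p i`. -/
noncomputable def fat {r : ℕ} (p : Fin r → Fin 3 → ℂ) (μ : Fin r → ℕ) (d : ℕ) :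
    Submodule ℂ (MvPolynomial (Fin 3) ℂ) :=
  (MvPolynomial.homogeneousSubmodule (Fin 3) ℂ d : Submodule ℂ (MvPolynomial (Fin 3) ℂ)) ⊓
    Submodule.restrictScalars ℂ (⨅ i : Fin r, ptIdeal (p i) ^ μ i : Ideal _)

/-- The number of pairs `(a, b)` with `b < δ` and `j δ + a + b ≤ d`. -/
def rowLen (d δ j : ℕ) : ℕ := ∑ b ∈ Finset.range δ, (d + 1 - j * δ - b)

/-- The number of rows `j' ≤ J`, `j' ≠ j`, which are not more expensive than `j` for the
price `h * j + π j`. -/
noncomputable def rk (J : ℕ) (π : ℕ → ℝ) (h : ℝ) (j : ℕ) : ℕ :=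
  ((Finset.range (J + 1)).filter fun j' : ℕ => j' ≠ j ∧ h * j' + π j' ≤ h * j + π j).card

end Pool.Agent.P.MP_8707bd_ag
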