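import Mathlib

/-!
Linear algebra and the rule of signs, used for the generic upper bound (helper file only).
-/

namespace Pool.Agent.P.MP_8707bd_ag.Row

open Polynomial

/-- A nonzero real polynomial has fewer sign variations than terms. -/
lemma signVariations_lt_card (n : ℕ) :
    ∀ P : ℝ[X], P ≠ 0 → P.support.card = n → P.signVariations + 1 ≤ n := by
  induction n with
  | zero =>
    intro P hP hc
    rw [Finset.card_eq_zero, Polynomial.support_eq_empty] at hc
    exact absurd hc hP
  | succ n ih =>
    intro P hP hc
    have h1 := Polynomial.card_support_eraseLead_add_one hP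
    by_cases he : P.eraseLead = 0
    · have h2 : Polynomial.monomial P.natDegree P.leadingCoeff = P := by
        simpa [he] using P.eraseLead_add_monomial_natDegree_leadingCoeff
      rw [← h2, Polynomial.signVariations_monomial]
      omega
    · have h3 := ih P.eraseLead he (by omega)
      have h4 := Polynomial.signVariations_le_eraseLead_succ P
      omega

/-- Vanishing power sums give vanishing polynomial sums. -/
lemma poly_comb {K V τ : Type*} [Field K] [AddCommGroup V] [Module K V] (T : Finset τ)
    (κ : τ → K) (w : τ → V) (n : ℕ) (h0 : ∀ k < n, ∑ s ∈ T, κ s ^ k • w s = 0)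
    (q : K[X]) (hq : q.natDegree < n) : ∑ s ∈ T, q.eval (κ s) • w s = 0 := by
  have h1 : ∀ s ∈ T, q.eval (κ s) • w s =
      ∑ k ∈ Finset.range (q.natDegree + 1), q.coeff k • (κ s ^ k • w s) := by
    intro s _
    rw [Polynomial.eval_eq_sum_range, Finset.sum_smul]
    refine Finset.sum_congr rfl fun k _ => ?_
    rw [mul_smul]
  rw [Finset.sum_congr rfl h1, Finset.sum_comm]
  refine Finset.sum_eq_zero fun k hk => ?_
  rw [← Finset.smul_sum, h0 k (by have := Finset.mem_range.1 hk; omega), smul_zero]

/-- Generalised Vandermonde systems at positive nodes with multiplicities are injective. -/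
lemma vander_real {κ : Type*} (T : Finset κ) (α : κ → ℕ) (hα : Set.InjOn α T) (e : κ → ℝ)
    {r : ℕ} (y : Fin r → ℝ) (hy : ∀ i, 0 < y i) (hinj : Function.Injective y) (ν : Fin r → ℕ)
    (hcard : T.card ≤ ∑ i, ν i)
    (h0 : ∀ i, ∀ l < ν i, ∑ k ∈ T, ((α k : ℝ)) ^ l * (e k * y i ^ α k) = 0) :
    ∀ k ∈ T, e k = 0 := by
  classical
  set Q : ℝ[X] := ∑ k ∈ T, C (e k) * X ^ (α k) with hQ
  have hcoeff : ∀ k ∈ T, Q.coeff (α k) = e k := by
    intro k hk
    rw [hQ, Polynomial.finsetSum_coeff, Finset.sum_eq_single k]
    · simp
    · intro k' hk' hne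
      have : α k ≠ α k' := fun h => hne (hα hk' hk h.symm)
      simp [Polynomial.coeff_X_pow, this]
    · intro h; exact absurd hk h
  by_contra hcon
  push Not at hcon
  obtain ⟨k0, hk0, hne0⟩ := hcon
  have hQ0 : Q ≠ 0 := by
    intro h
    have := hcoeff k0 hk0
    rw [h] at this
    exact hne0 (by simpa using this.symm)
  have hsupp : Q.support.card ≤ T.card := by
    refine le_trans (Finset.card_le_card (t := T.image α) ?_) Finset.card_image_le
    intro n hn
    rw [Polynomial.mem_support_iff, hQ, Polynomial.finsetSum_coeff] at hn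
    obtain ⟨k, hk, hk2⟩ := Finset.exists_ne_zero_of_sum_ne_zero hn
    refine Finset.mem_image.2 ⟨k, hk, ?_⟩
    by_contra h
    apply hk2
    simp [Polynomial.coeff_X_pow, Ne.symm h]
  have hmult : ∀ i, ν i ≤ Q.rootMultiplicity (y i) := by
    intro i
    rcases Nat.eq_zero_or_pos (ν i) with h | h
    · omega
    have h1 : ν i - 1 < Q.rootMultiplicity (y i) := by
      refine Polynomial.lt_rootMultiplicity_of_isRoot_iterate_derivative hQ0 fun m hm => ?_
      have h2 := poly_comb (K := ℝ) (V := ℝ) T (fun k => (α k : ℝ)) (fun k => e k * y i ^ α k)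
        (ν i) (by simpa using h0 i) (descPochhammer ℝ m)
        (by rw [descPochhammer_natDegree]; omega)
      have h3 : y i ^ m * (derivative^[m] Q).eval (y i) = 0 := by
        rw [← h2, hQ, Polynomial.iterate_derivative_sum, Polynomial.eval_finsetSum,
          Finset.mul_sum]
        refine Finset.sum_congr rfl fun k _ => ?_
        rw [Polynomial.iterate_derivative_C_mul, Polynomial.iterate_derivative_X_pow_eq_natCast_mul,
          descPochhammer_eval_eq_descFactorial]
        simp only [eval_mul, eval_C, eval_natCast, eval_pow, eval_X, smul_eq_mul]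
        by_cases hmk : m ≤ α k
        · have : y i ^ α k = y i ^ m * y i ^ (α k - m) := by
            rw [← pow_add]; congr 1; omega
          rw [this]; ring
        · rw [Nat.descFactorial_of_lt (by omega)]; simp
      rcases mul_eq_zero.1 h3 with h4 | h4
      · exact absurd h4 (pow_ne_zero _ (hy i).ne')
      · exact h4
    omega
  have hroots : ∑ i, ν i ≤ Q.roots.countP (0 < ·) := by
    rw [Multiset.countP_eq_card_filter]
    set s := Q.roots.filter (0 < ·) with hs
    rw [← Multiset.sum_count_eq_card (s := s.toFinset ∪ Finset.univ.image y) (m := s)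
      (fun a ha => Finset.mem_union_left _ (Multiset.mem_toFinset.2 ha))]
    refine le_trans ?_ (Finset.sum_le_sum_of_subset Finset.subset_union_right)
    rw [Finset.sum_image (fun a _ b _ h => hinj h)]
    refine Finset.sum_le_sum fun i _ => ?_
    rw [hs, Multiset.count_filter_of_pos (hy i), Polynomial.count_roots]
    exact hmult i
  have h5 := Polynomial.roots_countP_pos_le_signVariations Q
  have h6 := signVariations_lt_card _ Q hQ0 rfl
  omega

/-- The same with complex coefficients. -/
lemma vander {κ : Type*} (T : Finset κ) (α : κ → ℕ) (hα : Set.InjOn α T) (e : κ → ℂ)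
    {r : ℕ} (y : Fin r → ℕ) (hy : ∀ i, 0 < y i) (hinj : Function.Injective y) (ν : Fin r → ℕ)
    (hcard : T.card ≤ ∑ i, ν i)
    (h0 : ∀ i, ∀ l < ν i, ∑ k ∈ T, (((α k ^ l * y i ^ α k : ℕ) : ℂ)) * e k = 0) :
    ∀ k ∈ T, e k = 0 := by
  have hy' : ∀ i, (0 : ℝ) < (y i : ℝ) := fun i => by exact_mod_cast hy i
  have hinj' : Function.Injective fun i => (y i : ℝ) := fun a b h =>
    hinj (Nat.cast_injective (R := ℝ) h)
  have h1 := vander_real T α hα (fun k => (e k).re) _ hy' hinj' ν hcard (by
    intro i l hl
    have := congrArg Complex.re (h0 i l hl)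
    rw [Complex.re_sum] at this
    rw [Complex.zero_re] at this
    rw [← this]
    refine Finset.sum_congr rfl fun k _ => ?_
    rw [← Complex.ofReal_natCast, Complex.re_ofReal_mul]
    push_cast
    ring)
  have h2 := vander_real T α hα (fun k => (e k).im) _ hy' hinj' ν hcard (by
    intro i l hl
    have := congrArg Complex.im (h0 i l hl)
    rw [Complex.im_sum] at this
    rw [Complex.zero_im] at this
    rw [← this]
    refine Finset.sum_congr rfl fun k _ => ?_
    rw [← Complex.ofReal_natCast, Complex.im_ofReal_mul]
    push_cast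
    ring)
  intro k hk
  exact Complex.ext (h1 k hk) (h2 k hk)

/-- An injective matrix over a field has a nonzero maximal minor. -/
lemma exists_minor {L m n : Type*} [Field L] [Fintype m] [Fintype n] [DecidableEq n]
    (N : Matrix m n L) (hN : ∀ c : n → L, N.mulVec c = 0 → c = 0) :
    ∃ f : n → m, (N.submatrix f id).det ≠ 0 := by
  classical
  have hker : LinearMap.ker (Matrix.toLin' N) = ⊥ := by
    rw [LinearMap.ker_eq_bot']
    intro c hc
    exact hN c (by simpa using hc)
  obtain ⟨g, hg⟩ := LinearMap.exists_leftInverse_of_injective _ hker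
  set U : Matrix n m L := LinearMap.toMatrix' g with hU
  have hUN : U * N = 1 := by
    have := congrArg LinearMap.toMatrix' hg
    rw [LinearMap.toMatrix'_comp, LinearMap.toMatrix'_toLin', LinearMap.toMatrix'_id] at this
    exact this
  by_contra hcon
  push Not at hcon
  have h1 : (U * N).det = 0 := by
    have h2 : (U * N) = Matrix.of fun i => ∑ k, U i k • N k := by
      ext i j
      simp [Matrix.mul_apply, Finset.sum_apply]
    have h3 : (U * N).det =
        (Matrix.detRowAlternating : (n → L) [⋀^n]→ₗ[L] L).toMultilinearMap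
          (fun i => ∑ k, U i k • N k) := by
      rw [h2]; rfl
    rw [h3, MultilinearMap.map_sum]
    refine Finset.sum_eq_zero fun f _ => ?_
    rw [MultilinearMap.map_smul_univ]
    have h4 : (Matrix.detRowAlternating : (n → L) [⋀^n]→ₗ[L] L).toMultilinearMap
        (fun i => N (f i)) = (N.submatrix f id).det := rfl
    rw [h4, hcon f, smul_zero]
  rw [hUN, Matrix.det_one] at h1
  exact one_ne_zero h1

/-- A nonzero maximal minor makes the matrix injective. -/
lemma inj_of_minor {L m n : Type*} [Field L] [Fintype n] [DecidableEq n]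
    (N : Matrix m n L) (f : n → m) (hf : (N.submatrix f id).det ≠ 0) (c : n → L)
    (hc : N.mulVec c = 0) : c = 0 := by
  refine Matrix.eq_zero_of_mulVec_eq_zero hf ?_
  ext i
  exact congrFun hc (f i)

end Pool.Agent.P.MP_8707bd_ag.Row
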