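import Mathlib
import Pool.Agent.P.MP_8707bd_ag.Defs

/-!
Differential operators adapted to the coordinates `z = x - y ^ δ`, `y`, and the spanning family
of the forms of degree `d` (helper file only).
-/

namespace Pool.Agent.P.MP_8707bd_ag.Row

open MvPolynomial

/-- The polynomial ring in three variables. -/
abbrev R3 : Type := MvPolynomial (Fin 3) ℂ

/-- The derivation `z ∂_z`. -/
noncomputable def Tz (δ : ℕ) : Derivation ℂ R3 R3 :=
  MvPolynomial.mkDerivation ℂ ![X 0 - X 1 ^ δ, 0, 0]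

/-- The derivation `y ∂_y` at fixed `z`. -/
noncomputable def Ty (δ : ℕ) : Derivation ℂ R3 R3 :=
  MvPolynomial.mkDerivation ℂ ![(δ : R3) * X 1 ^ δ, X 1, 0]

/-- The operator: `k` times `z ∂_z`, then `l` times `y ∂_y`. -/
noncomputable def op (δ k l : ℕ) : Module.End ℂ R3 :=
  ((Ty δ).toLinearMap : Module.End ℂ R3) ^ l * ((Tz δ).toLinearMap : Module.End ℂ R3) ^ k

/-- The spanning family. -/
noncomputable def Bas (d δ j b a : ℕ) : R3 :=
  (X 0 * X 2 ^ (δ - 1) - X 1 ^ δ) ^ j * X 0 ^ a * X 1 ^ b * X 2 ^ (d - j * δ - b - a)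

/-- Setting the last variable equal to one. -/
noncomputable def eps : R3 →ₐ[ℂ] R3 := MvPolynomial.aeval ![X 0, X 1, 1]

lemma der_mem (D : Derivation ℂ R3 R3) (I : Ideal R3) (n : ℕ) :
    ∀ F ∈ I ^ n, D F ∈ I ^ (n - 1) := by
  induction n with
  | zero => intro F _; simp
  | succ n ih =>
    intro F hF
    rw [pow_succ] at hF
    refine Submodule.mul_induction_on hF ?_ ?_
    · intro a ha b hb
      rw [Derivation.leibniz, smul_eq_mul, smul_eq_mul, Nat.add_sub_cancel]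
      refine Ideal.add_mem _ (Ideal.mul_mem_right _ _ ha) ?_
      have h1 : D a * b ∈ I ^ (n - 1) * I := Ideal.mul_mem_mul (ih a ha) hb
      rw [← pow_succ] at h1
      rw [mul_comm]
      exact Ideal.pow_le_pow_right (by omega) h1
    · intro a b ha hb
      rw [map_add]
      exact Ideal.add_mem _ ha hb

lemma der_pow_mem (D : Derivation ℂ R3 R3) (I : Ideal R3) (k : ℕ) :
    ∀ n, ∀ F ∈ I ^ n, ((D.toLinearMap : Module.End ℂ R3) ^ k) F ∈ I ^ (n - k) := by
  induction k with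
  | zero => intro n F hF; simpa using hF
  | succ k ih =>
    intro n F hF
    rw [pow_succ, Module.End.mul_apply]
    have := ih (n - 1) _ (der_mem D I n F hF)
    rw [show n - (k + 1) = n - 1 - k by omega]
    exact this

lemma eval_op_eq_zero (p : Fin 3 → ℂ) (δ k l μ : ℕ) (hkl : k + l < μ) (F : R3)
    (hF : F ∈ ptIdeal p ^ μ) : MvPolynomial.eval p (op δ k l F) = 0 := by
  have h1 := der_pow_mem (Ty δ) _ l _ _ (der_pow_mem (Tz δ) _ k _ _ hF)
  have h2 : op δ k l F ∈ ptIdeal p := by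
    have h3 : ptIdeal p ^ (μ - k - l) ≤ ptIdeal p ^ 1 := Ideal.pow_le_pow_right (by omega)
    rw [pow_one] at h3
    exact h3 h1
  have h4 : ptIdeal p ≤ RingHom.ker (MvPolynomial.eval p) := by
    unfold ptIdeal
    rw [Ideal.span_le]
    intro L hL
    exact hL.2
  exact h4 h2

lemma eps_der (D : Derivation ℂ R3 R3) (h : ∀ k, eps (D (X k)) = D (eps (X k))) (F : R3) :
    eps (D F) = D (eps F) := by
  induction F using MvPolynomial.induction_on with
  | C a => simp [eps]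
  | add p q hp hq => simp [hp, hq]
  | mul_X p k hp =>
    rw [Derivation.leibniz, map_mul, Derivation.leibniz]
    simp only [smul_eq_mul, map_add, map_mul, hp, h k]

lemma eps_Tz (δ : ℕ) (F : R3) : eps (Tz δ F) = Tz δ (eps F) := by
  refine eps_der _ (fun k => ?_) F
  fin_cases k <;> simp [eps, Tz, MvPolynomial.mkDerivation_X]

lemma eps_Ty (δ : ℕ) (F : R3) : eps (Ty δ F) = Ty δ (eps F) := by
  refine eps_der _ (fun k => ?_) F
  fin_cases k <;> simp [eps, Ty, MvPolynomial.mkDerivation_X]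

lemma eps_pow (D : Derivation ℂ R3 R3) (h : ∀ F, eps (D F) = D (eps F)) (k : ℕ) :
    ∀ F, eps (((D.toLinearMap : Module.End ℂ R3) ^ k) F) =
      ((D.toLinearMap : Module.End ℂ R3) ^ k) (eps F) := by
  induction k with
  | zero => intro F; simp
  | succ k ih =>
    intro F
    rw [pow_succ, Module.End.mul_apply, Module.End.mul_apply, ih]
    congr 1
    exact h F

lemma eps_op (δ k l : ℕ) (F : R3) : eps (op δ k l F) = op δ k l (eps F) := by
  unfold op
  rw [Module.End.mul_apply, Module.End.mul_apply, eps_pow _ (eps_Ty δ), eps_pow _ (eps_Tz δ)]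

lemma der_pow_eigen (D : Derivation ℂ R3 R3) (F : R3) (c : ℂ) (h : D F = c • F) (n : ℕ) :
    D (F ^ n) = (n * c : ℂ) • F ^ n := by
  induction n with
  | zero => simp
  | succ n ih =>
    rw [pow_succ, Derivation.leibniz, ih, h]
    simp only [smul_eq_mul, MvPolynomial.smul_eq_C_mul, map_mul, map_add, map_natCast,
      Nat.cast_add, Nat.cast_one, map_one]
    ring

lemma end_pow_eigen (f : Module.End ℂ R3) (F : R3) (c : ℂ) (h : f F = c • F) (n : ℕ) :
    (f ^ n) F = c ^ n • F := by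
  induction n with
  | zero => simp
  | succ n ih => rw [pow_succ', Module.End.mul_apply, ih, map_smul, h, smul_smul, pow_succ]

lemma op_eigen (δ k l κ α : ℕ) :
    op δ k l ((X 0 - X 1 ^ δ) ^ κ * X 1 ^ α) =
      ((κ : ℂ) ^ k * (α : ℂ) ^ l) • ((X 0 - X 1 ^ δ) ^ κ * X 1 ^ α : R3) := by
  have z1 : Tz δ (X 1) = (0 : ℂ) • (X 1 : R3) := by simp [Tz, MvPolynomial.mkDerivation_X]
  have z0 : Tz δ (X 0) = X 0 - X 1 ^ δ := by simp [Tz, MvPolynomial.mkDerivation_X]
  have zu : Tz δ (X 0 - X 1 ^ δ) = (1 : ℂ) • (X 0 - X 1 ^ δ : R3) := by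
    rw [map_sub, der_pow_eigen _ _ _ z1, z0]; simp
  have y1 : Ty δ (X 1) = (1 : ℂ) • (X 1 : R3) := by simp [Ty, MvPolynomial.mkDerivation_X]
  have y0 : Ty δ (X 0) = (δ : R3) * X 1 ^ δ := by simp [Ty, MvPolynomial.mkDerivation_X]
  have yu : Ty δ (X 0 - X 1 ^ δ) = (0 : ℂ) • (X 0 - X 1 ^ δ : R3) := by
    rw [map_sub, der_pow_eigen _ _ _ y1, y0]
    simp [MvPolynomial.smul_eq_C_mul]
  have hz : (Tz δ).toLinearMap ((X 0 - X 1 ^ δ) ^ κ * X 1 ^ α) =
      (κ : ℂ) • ((X 0 - X 1 ^ δ) ^ κ * X 1 ^ α : R3) := by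
    change Tz δ _ = _
    rw [Derivation.leibniz, der_pow_eigen _ _ _ zu, der_pow_eigen _ _ _ z1]
    simp only [smul_eq_mul, MvPolynomial.smul_eq_C_mul, mul_one, mul_zero, map_zero, zero_mul]
    ring
  have hy : (Ty δ).toLinearMap ((X 0 - X 1 ^ δ) ^ κ * X 1 ^ α) =
      (α : ℂ) • ((X 0 - X 1 ^ δ) ^ κ * X 1 ^ α : R3) := by
    change Ty δ _ = _
    rw [Derivation.leibniz, der_pow_eigen _ _ _ yu, der_pow_eigen _ _ _ y1]
    simp only [smul_eq_mul, MvPolynomial.smul_eq_C_mul, mul_one, mul_zero, map_zero, zero_mul]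
    ring
  unfold op
  rw [Module.End.mul_apply, end_pow_eigen _ _ _ hz, map_smul, end_pow_eigen _ _ _ hy, smul_smul]

lemma eps_Bas (d δ j b a : ℕ) :
    eps (Bas d δ j b a) = ∑ s ∈ Finset.range (a + 1),
      (a.choose s : ℂ) • ((X 0 - X 1 ^ δ) ^ (j + s) * X 1 ^ (δ * (a - s) + b) : R3) := by
  have h1 : eps (Bas d δ j b a) =
      (X 0 - X 1 ^ δ) ^ j * ((X 0 - X 1 ^ δ) + X 1 ^ δ) ^ a * X 1 ^ b := by
    simp [eps, Bas]
  rw [h1, add_pow, Finset.mul_sum, Finset.sum_mul]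
  refine Finset.sum_congr rfl fun s _ => ?_
  rw [MvPolynomial.smul_eq_C_mul, map_natCast, pow_add, pow_add, pow_mul]
  ring

/-- The value of the operators on the spanning family at a point with coordinates `z + y ^ δ`, `y`, `1`. -/
lemma aeval_op_Bas {L : Type*} [CommRing L] [Algebra ℂ L] (z y : L) (d δ j b a k l : ℕ) :
    MvPolynomial.aeval ![z + y ^ δ, y, 1] (op δ k l (Bas d δ j b a)) =
      ∑ s ∈ Finset.range (a + 1),
        ((j + s) ^ k * ((δ * (a - s) + b) ^ l * a.choose s) : ℕ) •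
          (z ^ (j + s) * y ^ (δ * (a - s) + b)) := by
  have h1 : ∀ F : R3, MvPolynomial.aeval ![z + y ^ δ, y, 1] F =
      MvPolynomial.aeval ![z + y ^ δ, y, 1] (eps F) := by
    intro F
    have : (MvPolynomial.aeval ![z + y ^ δ, y, 1] : R3 →ₐ[ℂ] L) =
        (MvPolynomial.aeval ![z + y ^ δ, y, 1]).comp eps := by
      ext k
      fin_cases k <;> simp [eps]
    exact congrArg (fun f : R3 →ₐ[ℂ] L => f F) this
  rw [h1, eps_op, eps_Bas, map_sum, map_sum]
  refine Finset.sum_congr rfl fun s _ => ?_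
  rw [map_smul, op_eigen, smul_smul, map_smul, ← Nat.cast_smul_eq_nsmul ℂ]
  congr 1
  · push_cast
    ring
  · simp

/-- The index set of the spanning family. -/
abbrev Idx (d δ J : ℕ) : Type :=
  Σ j : Fin (J + 1), Σ b : Fin δ, Fin (d + 1 - j * δ - b)

lemma mono_mem_span (d δ J : ℕ) (hδ : 0 < δ) (hJ : d < (J + 1) * δ) (c : ℕ) :
    ∀ j a e : ℕ, j * δ + a + c + e = d →
      ((X 0 * X 2 ^ (δ - 1) - X 1 ^ δ) ^ j * X 0 ^ a * X 1 ^ c * X 2 ^ e : R3) ∈
        Submodule.span ℂ (Set.range fun σ : Idx d δ J => Bas d δ σ.1 σ.2.1 σ.2.2) := by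
  induction c using Nat.strong_induction_on with
  | _ c ih =>
    intro j a e hsum
    by_cases hc : c < δ
    · have hj : j < J + 1 := by
        by_contra h
        have : (J + 1) * δ ≤ j * δ := Nat.mul_le_mul_right _ (by omega)
        omega
      refine Submodule.subset_span ⟨⟨⟨j, hj⟩, ⟨c, hc⟩, ⟨a, by simp only; omega⟩⟩, ?_⟩
      simp only [Bas]
      rw [show d - j * δ - c - a = e by omega]
    · obtain ⟨c', rfl⟩ : ∃ c', c = c' + δ := ⟨c - δ, by omega⟩
      have h1 := ih c' (by omega) j (a + 1) (e + (δ - 1)) (by omega)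
      have h2 := ih c' (by omega) (j + 1) a e (by rw [add_mul]; omega)
      have h3 := Submodule.sub_mem _ h1 h2
      convert h3 using 1
      ring

lemma homog_le_span (d δ J : ℕ) (hδ : 0 < δ) (hJ : d < (J + 1) * δ) :
    (MvPolynomial.homogeneousSubmodule (Fin 3) ℂ d : Submodule ℂ R3) ≤
      Submodule.span ℂ (Set.range fun σ : Idx d δ J => Bas d δ σ.1 σ.2.1 σ.2.2) := by
  intro F hF
  rw [MvPolynomial.mem_homogeneousSubmodule] at hF
  rw [F.as_sum]
  refine Submodule.sum_mem _ fun m hm => ?_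
  have hdeg : m 0 + m 1 + m 2 = d := by
    have := hF (MvPolynomial.mem_support_iff.1 hm)
    rw [← this, Finsupp.weight_apply, Finsupp.sum_fintype _ _ (by simp)]
    simp [Fin.sum_univ_three]
  have h1 := mono_mem_span d δ J hδ hJ (m 1) 0 (m 0) (m 2) (by omega)
  have h2 : (MvPolynomial.monomial m (MvPolynomial.coeff m F) : R3) =
      MvPolynomial.coeff m F • ((X 0 * X 2 ^ (δ - 1) - X 1 ^ δ) ^ 0 * X 0 ^ m 0 * X 1 ^ m 1 *
        X 2 ^ m 2 : R3) := by
    rw [MvPolynomial.monomial_eq, Finsupp.prod_fintype _ _ (by simp), Fin.prod_univ_three,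
      MvPolynomial.smul_eq_C_mul]
    ring
  rw [h2]
  exact Submodule.smul_mem _ _ h1

end Pool.Agent.P.MP_8707bd_ag.Row
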