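import Mathlib
import Pool.Agent.P.MP_8707bd_ag.RowA
import Pool.Agent.P.MP_8707bd_ag.RowB

/-!
The valuation argument: at a special configuration of points over the field of Hahn series, the
conditions together with a few coordinate conditions have only the zero solution
(helper file only).
-/

namespace Pool.Agent.P.MP_8707bd_ag.Row

open MvPolynomial

/-- The field of Hahn series with real exponents. -/
abbrev HL : Type := HahnSeries ℝ ℂ

lemma coeff_term (η : ℝ) (n y α : ℕ) (x : HL) (γ : ℝ) :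
    ((HahnSeries.single η (1 : ℂ) : HL) ^ n * (y : HL) ^ α * x).coeff γ =
      (y : ℂ) ^ α * x.coeff (γ - n * η) := by
  have h1 : ((y : HL)) ^ α = HahnSeries.single (0 : ℝ) ((y : ℂ) ^ α) := by
    rw [← HahnSeries.C_apply, map_pow, map_natCast]
  rw [h1, HahnSeries.single_pow, HahnSeries.single_mul_single, one_pow, one_mul, add_zero,
    nsmul_eq_mul]
  have h2 := HahnSeries.coeff_single_mul_add (r := (y : ℂ) ^ α) (x := x) (a := γ - n * η)
    (b := n * η)
  rw [sub_add_cancel] at h2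
  exact h2

/-- The special points. -/
noncomputable def spPt (δ : ℕ) {r : ℕ} (h : Fin r → ℝ) (H : ℝ) (i : Fin r) : Fin 3 → HL :=
  ![HahnSeries.single (h i + H) (1 : ℂ) + (((i : ℕ) + 1 : ℕ) : HL) ^ δ,
    (((i : ℕ) + 1 : ℕ) : HL), 1]

lemma leading_eq (r d δ J : ℕ) (μ : Fin r → ℕ) (π : ℕ → ℝ) (h : Fin r → ℝ) (H : ℝ)
    (hH : ∀ i, ∀ j j0 : Fin (J + 1), h i * j0 + π j0 - (h i * j + π j) < h i + H)
    (c : Idx d δ J → HL)
    (hc : ∀ i k l, k + l < μ i →
      ∑ σ : Idx d δ J, MvPolynomial.aeval (spPt δ h H i) (op δ k l (Bas d δ σ.1 σ.2.1 σ.2.2)) *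
        c σ = 0)
    (ω : ℝ) (hlow : ∀ σ : Idx d δ J, ∀ γ, γ < ω + (π σ.1 - H * σ.1) → (c σ).coeff γ = 0)
    (j0 : Fin (J + 1)) (i : Fin r) (l : ℕ) (hl : l < μ i - rk J π (h i) j0) :
    ∑ ba : (Σ b : Fin δ, Fin (d + 1 - j0 * δ - b)),
      ((((δ * ba.2 + ba.1) ^ l * ((i : ℕ) + 1) ^ (δ * ba.2 + ba.1) : ℕ) : ℂ)) *
        (c ⟨j0, ba⟩).coeff (ω + (π j0 - H * j0)) = 0 := by
  classical
  set ch : Finset ℕ := (Finset.range (J + 1)).filter
    fun j' : ℕ => j' ≠ j0 ∧ h i * j' + π j' ≤ h i * j0 + π j0 with hch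
  have hrk : rk J π (h i) j0 = ch.card := rfl
  set q : Polynomial ℂ := ∏ j' ∈ ch, (Polynomial.X - Polynomial.C (j' : ℂ)) with hq
  have hqdeg : q.natDegree = ch.card := by
    rw [hq, Polynomial.natDegree_finsetProd_X_sub_C_eq_card]
  have hq0 : ∀ j' ∈ ch, q.eval (j' : ℂ) = 0 := by
    intro j' hj'
    rw [hq, Polynomial.eval_prod]
    exact Finset.prod_eq_zero hj' (by simp)
  have hq1 : q.eval ((j0 : ℕ) : ℂ) ≠ 0 := by
    rw [hq, Polynomial.eval_prod]
    refine Finset.prod_ne_zero_iff.2 fun j' hj' => ?_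
    have hne : j' ≠ j0 := (Finset.mem_filter.1 hj').2.1
    simp only [Polynomial.eval_sub, Polynomial.eval_X, Polynomial.eval_C]
    rw [sub_ne_zero]
    exact fun h => hne (Nat.cast_injective (R := ℂ) h).symm
  set z : HL := HahnSeries.single (h i + H) (1 : ℂ) with hz
  set y : ℕ := (i : ℕ) + 1 with hy
  have key := poly_comb (K := ℂ) (V := HL)
    ((Finset.univ : Finset (Idx d δ J)).sigma fun σ => Finset.range ((σ.2.2 : ℕ) + 1))
    (fun t => (((t.1.1 : ℕ) + t.2 : ℕ) : ℂ))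
    (fun t => (((δ * ((t.1.2.2 : ℕ) - t.2) + t.1.2.1 : ℕ) : ℂ) ^ l *
        (((t.1.2.2 : ℕ).choose t.2 : ℕ) : ℂ)) •
      (z ^ ((t.1.1 : ℕ) + t.2) * (y : HL) ^ (δ * ((t.1.2.2 : ℕ) - t.2) + t.1.2.1) * c t.1))
    (ch.card + 1) (by
      intro k hk
      rw [← hc i k l (by omega), Finset.sum_sigma]
      refine Finset.sum_congr rfl fun σ _ => ?_
      unfold spPt
      rw [aeval_op_Bas, Finset.sum_mul]
      refine Finset.sum_congr rfl fun s _ => ?_
      rw [smul_smul, smul_mul_assoc, ← Nat.cast_smul_eq_nsmul ℂ]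
      congr 1
      push_cast
      ring) q (by omega)
  have key2 := congrArg (fun x : HL => x.coeff (ω + (h i * j0 + π j0))) key
  simp only [HahnSeries.coeff_sum, HahnSeries.coeff_smul, HahnSeries.coeff_zero, smul_eq_mul,
    hz, coeff_term] at key2
  rw [Finset.sum_sigma] at key2
  have hpos : 0 < h i + H := by simpa using hH i j0 j0
  have step1 : ∀ σ ∈ (Finset.univ : Finset (Idx d δ J)),
      ∑ s ∈ Finset.range ((σ.2.2 : ℕ) + 1),
        q.eval (((σ.1 : ℕ) + s : ℕ) : ℂ) *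
          ((((δ * ((σ.2.2 : ℕ) - s) + σ.2.1 : ℕ) : ℂ) ^ l * (((σ.2.2 : ℕ).choose s : ℕ) : ℂ)) *
            ((y : ℂ) ^ (δ * ((σ.2.2 : ℕ) - s) + σ.2.1) *
              (c σ).coeff (ω + (h i * j0 + π j0) - (((σ.1 : ℕ) + s : ℕ) : ℝ) * (h i + H)))) =
      q.eval ((σ.1 : ℕ) : ℂ) *
          ((((δ * (σ.2.2 : ℕ) + σ.2.1 : ℕ) : ℂ) ^ l) *
            ((y : ℂ) ^ (δ * (σ.2.2 : ℕ) + σ.2.1) *
              (c σ).coeff (ω + (h i * j0 + π j0) - ((σ.1 : ℕ) : ℝ) * (h i + H)))) := by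
    intro σ _
    rw [Finset.sum_eq_single 0]
    · simp
    · intro s _ hs
      have hs1 : (1 : ℝ) ≤ s := by exact_mod_cast Nat.one_le_iff_ne_zero.2 hs
      rw [hlow σ _ (by
        have h1 := hH i σ.1 j0
        have h2 : h i + H ≤ s * (h i + H) := le_mul_of_one_le_left hpos.le hs1
        push_cast
        nlinarith)]
      simp
    · intro h0; exact absurd (Finset.mem_range.2 (Nat.succ_pos _)) h0
  have key3 := (Finset.sum_congr rfl step1).symm.trans key2
  rw [Fintype.sum_sigma, Finset.sum_eq_single j0] at key3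
  · simp only at key3
    rw [← Finset.mul_sum] at key3
    have key4 := (mul_eq_zero.1 key3).resolve_left hq1
    rw [← key4]
    refine Finset.sum_congr rfl fun ba _ => ?_
    rw [show ω + (h i * j0 + π j0) - ((j0 : ℕ) : ℝ) * (h i + H) = ω + (π j0 - H * j0) by ring]
    push_cast
    ring
  · intro j _ hj
    refine Finset.sum_eq_zero fun ba _ => ?_
    by_cases hle : h i * j + π j ≤ h i * j0 + π j0
    · have : (j : ℕ) ∈ ch := Finset.mem_filter.2
        ⟨Finset.mem_range.2 j.2, fun h => hj (Fin.ext h), hle⟩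
      simp only
      rw [hq0 _ this, zero_mul]
    · rw [hlow ⟨j, ba⟩ _ (by
        push Not at hle
        simp only
        nlinarith)]
      simp
  · intro h0; exact absurd (Finset.mem_univ _) h0

lemma hahn_inj (r d δ J : ℕ) (μ : Fin r → ℕ) (π : ℕ → ℝ) (h : Fin r → ℝ) (H : ℝ)
    (hH : ∀ i, ∀ j j0 : Fin (J + 1), h i * j0 + π j0 - (h i * j + π j) < h i + H)
    (S : (j : Fin (J + 1)) → Finset (Σ b : Fin δ, Fin (d + 1 - j * δ - b)))
    (hS : ∀ j : Fin (J + 1), (S j)ᶜ.card ≤ ∑ i, (μ i - rk J π (h i) j))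
    (c : Idx d δ J → HL) (hcS : ∀ σ : Idx d δ J, σ.2 ∈ S σ.1 → c σ = 0)
    (hc : ∀ i k l, k + l < μ i →
      ∑ σ : Idx d δ J, MvPolynomial.aeval (spPt δ h H i) (op δ k l (Bas d δ σ.1 σ.2.1 σ.2.2)) *
        c σ = 0) : c = 0 := by
  classical
  by_contra hne
  have hex : ((Finset.univ : Finset (Idx d δ J)).filter fun σ => c σ ≠ 0).Nonempty := by
    obtain ⟨σ, hσ⟩ := Function.ne_iff.1 hne
    exact ⟨σ, Finset.mem_filter.2 ⟨Finset.mem_univ _, hσ⟩⟩
  obtain ⟨σ0, hσ0, hmin⟩ := Finset.exists_min_image _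
    (fun σ : Idx d δ J => (c σ).order - (π σ.1 - H * σ.1)) hex
  set ω : ℝ := (c σ0).order - (π σ0.1 - H * σ0.1) with hω
  have hlow : ∀ σ : Idx d δ J, ∀ γ, γ < ω + (π σ.1 - H * σ.1) → (c σ).coeff γ = 0 := by
    intro σ γ hγ
    by_cases h0 : c σ = 0
    · rw [h0]; simp
    · have := hmin σ (Finset.mem_filter.2 ⟨Finset.mem_univ _, h0⟩)
      exact HahnSeries.coeff_eq_zero_of_lt_order (by linarith)
  have hc0 : c σ0 ≠ 0 := (Finset.mem_filter.1 hσ0).2
  obtain ⟨j0, ba0⟩ := σ0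
  have hzero := vander (S j0)ᶜ (fun ba => δ * ba.2 + ba.1) (by
      rintro ⟨b, a⟩ _ ⟨b', a'⟩ _ hab
      simp only at hab
      have hb := b.2
      have hb' := b'.2
      have h1 : (b : ℕ) = b' := by
        have := congrArg (· % δ) hab
        simpa [Nat.mul_add_mod, Nat.mod_eq_of_lt hb, Nat.mod_eq_of_lt hb'] using this
      have h2 : b = b' := Fin.ext h1
      subst h2
      have h3 : (a : ℕ) = a' := by
        have : δ * (a : ℕ) = δ * a' := by omega
        exact Nat.eq_of_mul_eq_mul_left (by omega) this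
      rw [Fin.ext h3])
    (fun ba => (c ⟨j0, ba⟩).coeff (ω + (π j0 - H * j0))) (fun i : Fin r => (i : ℕ) + 1)
    (fun i => Nat.succ_pos _) (fun a b hab => Fin.ext (by simpa using hab))
    (fun i => μ i - rk J π (h i) j0) (hS j0) (by
      intro i l hl
      rw [← leading_eq r d δ J μ π h H hH c hc ω hlow j0 i l hl]
      refine Finset.sum_subset (Finset.subset_univ _) fun ba _ hba => ?_
      rw [hcS ⟨j0, ba⟩ (by simpa using hba)]
      simp) ba0 (by
      rw [Finset.mem_compl]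
      exact fun hm => hc0 (hcS ⟨j0, ba0⟩ hm))
  simp only [hω, sub_add_cancel] at hzero
  exact hc0 (HahnSeries.coeff_order_eq_zero.1 hzero)

end Pool.Agent.P.MP_8707bd_ag.Row
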