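import Mathlib
import Pool.Agent.P.MP_8707bd_ag.Defs
import Pool.Agent.P.MP_8707bd_ag.RowC

/-!
The generic upper bound for the dimension of a linear system with fat base points
(helper file only).
-/

namespace Pool.Agent.P.MP_8707bd_ag

open MvPolynomial

namespace Row

/-- The matrix of conditions, with polynomial entries in the coordinates of the points. -/
noncomputable def condMat (r d δ J : ℕ) (μ : Fin r → ℕ)
    (S : (j : Fin (J + 1)) → Finset (Σ b : Fin δ, Fin (d + 1 - j * δ - b))) :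
    Matrix ((Σ i : Fin r, Fin (μ i) × Fin (μ i)) ⊕ Idx d δ J) (Idx d δ J)
      (MvPolynomial (Fin r × Fin 3) ℂ) :=
  Matrix.of fun ρ σ => match ρ with
    | Sum.inl t => if (t.2.1 : ℕ) + t.2.2 < μ t.1 then
        MvPolynomial.rename (fun k : Fin 3 => (t.1, k))
          (op δ t.2.1 t.2.2 (Bas d δ σ.1 σ.2.1 σ.2.2)) else 0
    | Sum.inr τ => if τ = σ ∧ τ.2 ∈ S τ.1 then 1 else 0

lemma condMat_mulVec {L : Type*} [CommRing L] [Algebra ℂ L] (r d δ J : ℕ) (μ : Fin r → ℕ)
    (S : (j : Fin (J + 1)) → Finset (Σ b : Fin δ, Fin (d + 1 - j * δ - b)))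
    (P : Fin r → Fin 3 → L) (c : Idx d δ J → L) :
    ((condMat r d δ J μ S).map
      (MvPolynomial.aeval (fun ij : Fin r × Fin 3 => P ij.1 ij.2))).mulVec c = 0 ↔
    (∀ σ : Idx d δ J, σ.2 ∈ S σ.1 → c σ = 0) ∧
    (∀ i k l, k + l < μ i →
      ∑ σ : Idx d δ J, MvPolynomial.aeval (P i) (op δ k l (Bas d δ σ.1 σ.2.1 σ.2.2)) *
        c σ = 0) := by
  have e1 : ∀ t : (Σ i : Fin r, Fin (μ i) × Fin (μ i)),
      ((condMat r d δ J μ S).map
        (MvPolynomial.aeval (fun ij : Fin r × Fin 3 => P ij.1 ij.2))).mulVec c (Sum.inl t) =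
      if (t.2.1 : ℕ) + t.2.2 < μ t.1 then ∑ σ : Idx d δ J,
        MvPolynomial.aeval (P t.1) (op δ t.2.1 t.2.2 (Bas d δ σ.1 σ.2.1 σ.2.2)) * c σ else 0 := by
    intro t
    simp only [Matrix.mulVec, dotProduct, Matrix.map_apply, condMat, Matrix.of_apply]
    split_ifs with ht
    · refine Finset.sum_congr rfl fun σ _ => ?_
      rw [MvPolynomial.aeval_rename]
      rfl
    · simp
  have e2 : ∀ τ : Idx d δ J,
      ((condMat r d δ J μ S).map
        (MvPolynomial.aeval (fun ij : Fin r × Fin 3 => P ij.1 ij.2))).mulVec c (Sum.inr τ) =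
      if τ.2 ∈ S τ.1 then c τ else 0 := by
    intro τ
    simp only [Matrix.mulVec, dotProduct, Matrix.map_apply, condMat, Matrix.of_apply]
    rw [Finset.sum_eq_single τ]
    · by_cases hτ : τ.2 ∈ S τ.1 <;> simp [hτ]
    · intro σ _ hσ
      simp [Ne.symm hσ]
    · intro h0; exact absurd (Finset.mem_univ _) h0
  constructor
  · intro h0
    refine ⟨fun σ hσ => ?_, fun i k l hkl => ?_⟩
    · have := congrFun h0 (Sum.inr σ)
      rw [e2, if_pos hσ] at this
      exact this
    · have := congrFun h0 (Sum.inl ⟨i, ⟨k, by omega⟩, ⟨l, by omega⟩⟩)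
      rw [e1, if_pos hkl] at this
      exact this
  · rintro ⟨h1, h2⟩
    ext ρ
    rcases ρ with t | τ
    · rw [e1]
      split_ifs with ht
      · exact h2 _ _ _ ht
      · rfl
    · rw [e2]
      split_ifs with hτ
      · exact h1 τ hτ
      · rfl

lemma finrank_le_of_inj (r d δ J : ℕ) (hδ : 0 < δ) (hJ : d < (J + 1) * δ) (μ : Fin r → ℕ)
    (S : (j : Fin (J + 1)) → Finset (Σ b : Fin δ, Fin (d + 1 - j * δ - b)))
    (p : Fin r → Fin 3 → ℂ)
    (hinj : ∀ c : Idx d δ J → ℂ, (∀ σ : Idx d δ J, σ.2 ∈ S σ.1 → c σ = 0) →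
      (∀ i k l, k + l < μ i →
        ∑ σ : Idx d δ J, MvPolynomial.aeval (p i) (op δ k l (Bas d δ σ.1 σ.2.1 σ.2.2)) *
          c σ = 0) → c = 0) :
    Module.finrank ℂ (fat p μ d) ≤ ∑ j : Fin (J + 1), (S j).card := by
  classical
  set T : (Idx d δ J → ℂ) →ₗ[ℂ] R3 :=
    Fintype.linearCombination ℂ (fun σ : Idx d δ J => Bas d δ σ.1 σ.2.1 σ.2.2) with hT
  set V : Submodule ℂ (Idx d δ J → ℂ) := (fat p μ d).comap T with hV
  have h1 : fat p μ d = V.map T := by
    rw [hV, Submodule.map_comap_eq_self]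
    rw [hT, Fintype.range_linearCombination]
    exact le_trans inf_le_left (homog_le_span d δ J hδ hJ)
  set S' : Finset (Idx d δ J) := Finset.univ.sigma S with hS'
  set ρ : V →ₗ[ℂ] (S' → ℂ) :=
    (LinearMap.funLeft ℂ ℂ (fun σ : S' => (σ : Idx d δ J))).comp V.subtype with hρ
  have h2 : Function.Injective ρ := by
    rw [← LinearMap.ker_eq_bot, LinearMap.ker_eq_bot']
    intro c hc
    apply Subtype.ext
    refine hinj c.1 (fun σ hσ => ?_) (fun i k l hkl => ?_)
    · exact congrFun hc ⟨σ, Finset.mem_sigma.2 ⟨Finset.mem_univ _, hσ⟩⟩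
    · have h3 : T c.1 ∈ ptIdeal (p i) ^ μ i := by
        have h4 : T c.1 ∈ fat p μ d := c.2
        have h5 := h4.2
        exact (Submodule.mem_iInf _).1 h5 i
      have h6 := eval_op_eq_zero (p i) δ k l (μ i) hkl _ h3
      rw [hT, Fintype.linearCombination_apply, map_sum, map_sum] at h6
      rw [← h6]
      refine Finset.sum_congr rfl fun σ _ => ?_
      rw [map_smul, MvPolynomial.smul_eval, mul_comm]
      rfl
  have h7 := LinearMap.finrank_le_finrank_of_injective h2
  rw [Module.finrank_fintype_fun_eq_card, Fintype.card_coe, hS', Finset.card_sigma] at h7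
  rw [h1]
  exact le_trans (Submodule.finrank_map_le _ _) h7

end Row

open Row

/-- The generic upper bound. -/
theorem generic_bound (r d δ J : ℕ) (hδ : 0 < δ) (hJ : d < (J + 1) * δ) (μ : Fin r → ℕ)
    (π : ℕ → ℝ) (h : Fin r → ℝ) :
    ∃ Φ : MvPolynomial (Fin r × Fin 3) ℂ, Φ ≠ 0 ∧ ∀ p : Fin r → Fin 3 → ℂ,
      MvPolynomial.eval (fun ij : Fin r × Fin 3 => p ij.1 ij.2) Φ ≠ 0 →
      Module.finrank ℂ (fat p μ d) ≤
        ∑ j ∈ Finset.range (J + 1), (rowLen d δ j - ∑ i, (μ i - rk J π (h i) j)) := by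
  classical
  obtain ⟨H0, hH0⟩ := Finite.exists_le fun t : Fin r × Fin (J + 1) × Fin (J + 1) =>
    h t.1 * t.2.2 + π t.2.2 - (h t.1 * t.2.1 + π t.2.1) - h t.1
  have hH : ∀ i, ∀ j j0 : Fin (J + 1),
      h i * j0 + π j0 - (h i * j + π j) < h i + (H0 + 1) := by
    intro i j j0
    have := hH0 (i, j, j0)
    simp only at this
    linarith
  have hcard : ∀ j : Fin (J + 1),
      Fintype.card (Σ b : Fin δ, Fin (d + 1 - j * δ - b)) = rowLen d δ j := by
    intro j
    rw [Fintype.card_sigma, rowLen, ← Fin.sum_univ_eq_sum_range (fun b => d + 1 - j * δ - b)]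
    simp
  have hSex : ∀ j : Fin (J + 1), ∃ S : Finset (Σ b : Fin δ, Fin (d + 1 - j * δ - b)),
      S.card = rowLen d δ j - ∑ i, (μ i - rk J π (h i) j) := by
    intro j
    obtain ⟨S, _, hS⟩ := Finset.exists_subset_card_eq
      (s := (Finset.univ : Finset (Σ b : Fin δ, Fin (d + 1 - j * δ - b))))
      (n := rowLen d δ j - ∑ i, (μ i - rk J π (h i) j)) (by
        rw [Finset.card_univ, hcard]; omega)
    exact ⟨S, hS⟩
  choose S hS using hSex
  have hSc : ∀ j : Fin (J + 1), (S j)ᶜ.card ≤ ∑ i, (μ i - rk J π (h i) j) := by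
    intro j
    rw [Finset.card_compl, hcard, hS]
    omega
  obtain ⟨f, hf⟩ := exists_minor ((condMat r d δ J μ S).map
    (MvPolynomial.aeval (fun ij : Fin r × Fin 3 => spPt δ h (H0 + 1) ij.1 ij.2))) (by
      intro c hc
      rw [condMat_mulVec] at hc
      exact hahn_inj r d δ J μ π h (H0 + 1) hH S hSc c hc.1 hc.2)
  refine ⟨((condMat r d δ J μ S).submatrix f id).det, fun h0 => hf ?_, fun p hp => ?_⟩
  · have := AlgHom.map_det
      (MvPolynomial.aeval (fun ij : Fin r × Fin 3 => spPt δ h (H0 + 1) ij.1 ij.2))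
      ((condMat r d δ J μ S).submatrix f id)
    rw [h0, map_zero] at this
    exact this.symm
  · have h1 : (((condMat r d δ J μ S).map
        (MvPolynomial.aeval (fun ij : Fin r × Fin 3 => p ij.1 ij.2))).submatrix f id).det ≠ 0 := by
      have := AlgHom.map_det
        (MvPolynomial.aeval (fun ij : Fin r × Fin 3 => p ij.1 ij.2))
        ((condMat r d δ J μ S).submatrix f id)
      intro h2
      exact hp (this.trans h2)
    have h3 := finrank_le_of_inj r d δ J hδ hJ μ S p (fun c hc1 hc2 =>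
      inj_of_minor _ f h1 c ((condMat_mulVec r d δ J μ S p c).2 ⟨hc1, hc2⟩))
    rw [← Fin.sum_univ_eq_sum_range
      (fun j => rowLen d δ j - ∑ i, (μ i - rk J π (h i) j)) (J + 1)]
    refine le_trans h3 (le_of_eq ?_)
    exact Finset.sum_congr rfl fun j _ => hS j

end Pool.Agent.P.MP_8707bd_ag
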