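import Mathlib
import Pool.Agent.P.MP_8707bd_ag.Defs

/-!
Patterns compatible with a price function, and families of such patterns.
-/

namespace Pool.Agent.P.MP_8707bd_ag

open Finset

/-- The pattern `pat` is compatible with the order given by the price `h * j + π j`. -/
def Valid (m J : ℕ) (π : ℕ → ℝ) (h : ℝ) (pat : ℕ → ℕ) : Prop :=
  (∀ j, pat j ≤ m) ∧ ∀ j ≤ J, ∀ j' ≤ J, j' ≠ j → 0 < pat j → pat j' ≤ pat j →
    h * j + π j < h * j' + π j'

theorem Valid.inj {m J : ℕ} {π : ℕ → ℝ} {h : ℝ} {pat : ℕ → ℕ} (hv : Valid m J π h pat)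
    {j j' : ℕ} (hj : j ≤ J) (hj' : j' ≤ J) (h0 : 0 < pat j) (he : pat j = pat j') : j = j' := by
  by_contra hne
  have h1 := hv.2 j hj j' hj' (Ne.symm hne) h0 he.ge
  have h2 := hv.2 j' hj' j hj hne (he ▸ h0) he.le
  linarith

theorem Valid.le {m J : ℕ} {π : ℕ → ℝ} {h : ℝ} {pat : ℕ → ℕ} (hv : Valid m J π h pat)
    {j : ℕ} (hj : j ≤ J) : pat j ≤ m - rk J π h j := by
  rcases Nat.eq_zero_or_pos (pat j) with h0 | h0
  · omega
  have key : ∀ j' ∈ (range (J + 1)).filter
      (fun j' : ℕ => j' ≠ j ∧ h * j' + π j' ≤ h * j + π j), j' ≤ J ∧ pat j < pat j' := by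
    intro j' hj'
    simp only [mem_filter, mem_range] at hj'
    refine ⟨by omega, ?_⟩
    by_contra hc
    have := hv.2 j hj j' (by omega) hj'.2.1 h0 (by omega)
    linarith [hj'.2.2]
  have : rk J π h j ≤ (Ioc (pat j) m).card := by
    unfold rk
    refine Finset.card_le_card_of_injOn pat ?_ ?_
    · intro j' hj'
      have := key j' (by simpa using hj')
      simp only [coe_Ioc, Set.mem_Ioc]
      exact ⟨this.2, hv.1 j'⟩
    · intro a ha b hb hab
      have ha' := key a (by simpa using ha)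
      have hb' := key b (by simpa using hb)
      exact hv.inj ha'.1 hb'.1 (by omega) hab
  have h2 := hv.1 j
  simp only [Nat.card_Ioc] at this
  omega

theorem sum_Icc_one (m : ℕ) : ∑ v ∈ Icc 1 m, v = (m + 1).choose 2 := by
  induction m with
  | zero => simp
  | succ n ih =>
    rw [Finset.sum_Icc_succ_top (by omega), ih, Nat.choose_succ_succ' (n + 1) 1]
    simp [add_comm]

theorem Valid.sum_ge {m J : ℕ} {π : ℕ → ℝ} {h : ℝ} {pat : ℕ → ℕ} (hv : Valid m J π h pat)
    (w : ℕ) (hw : w + m ≤ J + 1) (hpos : ∀ j, w ≤ j → j < w + m → 0 < pat j) :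
    (m + 1).choose 2 ≤ ∑ j ∈ range (J + 1), pat j := by
  have hinj : Set.InjOn pat (Ico w (w + m) : Finset ℕ) := by
    intro a ha b hb hab
    simp only [coe_Ico, Set.mem_Ico] at ha hb
    exact hv.inj (by omega) (by omega) (hpos a ha.1 ha.2) hab
  have hsub : (Ico w (w + m)).image pat ⊆ Icc 1 m := by
    intro v hv'
    simp only [mem_image, mem_Ico] at hv'
    obtain ⟨a, ha, rfl⟩ := hv'
    simp only [mem_Icc]
    exact ⟨hpos a ha.1 ha.2, hv.1 a⟩
  have heq : (Ico w (w + m)).image pat = Icc 1 m := by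
    refine Finset.eq_of_subset_of_card_le hsub ?_
    rw [Finset.card_image_of_injOn hinj]
    simp
  calc (m + 1).choose 2 = ∑ v ∈ (Ico w (w + m)).image pat, v := by rw [heq, sum_Icc_one]
    _ = ∑ j ∈ Ico w (w + m), pat j := Finset.sum_image (f := fun v => v) hinj
    _ ≤ _ := by
      refine Finset.sum_le_sum_of_subset ?_
      intro j hj
      simp only [mem_Ico, mem_range] at hj ⊢
      omega

theorem card_rk_le (J : ℕ) (π : ℕ → ℝ) (h : ℝ) (k : ℕ) :
    ((range (J + 1)).filter fun j => rk J π h j ≤ k).card ≤ k + 1 := by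
  set s := (range (J + 1)).filter fun j => rk J π h j ≤ k with hs
  rcases s.eq_empty_or_nonempty with he | hne
  · simp [he]
  obtain ⟨j, hj, hmax⟩ := s.exists_max_image (fun j : ℕ => h * j + π j) hne
  have h1 : s.erase j ⊆ (range (J + 1)).filter
      fun j' : ℕ => j' ≠ j ∧ h * j' + π j' ≤ h * j + π j := by
    intro a ha
    rw [mem_erase] at ha
    rw [mem_filter]
    exact ⟨(mem_filter.1 ha.2).1, ha.1, hmax a ha.2⟩
  have h2 := Finset.card_le_card h1
  have h3 : rk J π h j ≤ k := (mem_filter.1 hj).2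
  rw [Finset.card_erase_of_mem hj] at h2
  unfold rk at h3
  omega

theorem sum_rk_le (m J : ℕ) (π : ℕ → ℝ) (h : ℝ) :
    ∑ j ∈ range (J + 1), (m - rk J π h j) ≤ (m + 1).choose 2 := by
  induction m with
  | zero => simp
  | succ n ih =>
    have h1 : ∑ j ∈ range (J + 1), (n + 1 - rk J π h j) =
        ∑ j ∈ range (J + 1), (n - rk J π h j) +
          ((range (J + 1)).filter fun j => rk J π h j ≤ n).card := by
      rw [Finset.card_filter, ← Finset.sum_add_distrib]
      refine Finset.sum_congr rfl fun j _ => ?_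
      split_ifs <;> omega
    have h2 := card_rk_le J π h n
    rw [h1, Nat.choose_succ_succ' (n + 1) 1]
    simp only [Nat.choose_one_right, Nat.reduceAdd] at *
    omega

/-- `n` points whose patterns cover at least `c` and such that `c` has total mass at least
`n` times the number of conditions. -/
def Cov (m J : ℕ) (π : ℕ → ℝ) (n : ℕ) (c : ℕ → ℕ) : Prop :=
  (∃ h : Fin n → ℝ, ∀ j ≤ J, c j ≤ ∑ i, (m - rk J π (h i) j)) ∧
    n * (m + 1).choose 2 ≤ ∑ j ∈ range (J + 1), c j

variable {m J : ℕ} {π : ℕ → ℝ}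

theorem Cov.zero : Cov m J π 0 (fun _ => 0) :=
  ⟨⟨fun i => i.elim0, fun j _ => by simp⟩, by simp⟩

theorem Cov.single {h : ℝ} {pat : ℕ → ℕ} (hv : Valid m J π h pat)
    (w : ℕ) (hw : w + m ≤ J + 1) (hpos : ∀ j, w ≤ j → j < w + m → 0 < pat j) :
    Cov m J π 1 pat :=
  ⟨⟨fun _ => h, fun j hj => by simpa using hv.le hj⟩, by simpa using hv.sum_ge w hw hpos⟩

theorem Cov.add {n n' : ℕ} {c c' : ℕ → ℕ} (h1 : Cov m J π n c) (h2 : Cov m J π n' c') :
    Cov m J π (n + n') (fun j => c j + c' j) := by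
  obtain ⟨⟨h, hh⟩, hs⟩ := h1
  obtain ⟨⟨h', hh'⟩, hs'⟩ := h2
  refine ⟨⟨Fin.append h h', fun j hj => ?_⟩, ?_⟩
  · rw [Fin.sum_univ_add]
    simp only [Fin.append_left, Fin.append_right]
    exact add_le_add (hh j hj) (hh' j hj)
  · rw [Finset.sum_add_distrib, add_mul]
    exact add_le_add hs hs'

theorem Cov.congr {n n' : ℕ} {c c' : ℕ → ℕ} (h1 : Cov m J π n c) (hn : n = n')
    (hc : ∀ j, c j = c' j) : Cov m J π n' c' := by
  subst hn
  rwa [show c' = c from funext fun j => (hc j).symm]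

theorem Cov.mul {n : ℕ} {c : ℕ → ℕ} (h1 : Cov m J π n c) (k : ℕ) :
    Cov m J π (k * n) (fun j => k * c j) := by
  induction k with
  | zero => exact Cov.zero.congr (by simp) (by simp)
  | succ k ih => exact (ih.add h1).congr (by ring) (fun j => by ring)

theorem Cov.sum {ι : Type*} (s : Finset ι) (n : ι → ℕ) (c : ι → ℕ → ℕ)
    (h : ∀ x ∈ s, Cov m J π (n x) (c x)) :
    Cov m J π (∑ x ∈ s, n x) (fun j => ∑ x ∈ s, c x j) := by
  classical
  induction s using Finset.induction_on with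
  | empty => exact Cov.zero.congr (by simp) (by simp)
  | insert a s ha ih =>
    refine ((h a (mem_insert_self _ _)).add
      (ih fun x hx => h x (mem_insert_of_mem hx))).congr ?_ fun j => ?_
    · rw [Finset.sum_insert ha]
    · rw [Finset.sum_insert ha]

/-- The target inequality for `r` points. -/
def Goal (m J : ℕ) (π : ℕ → ℝ) (a : ℕ → ℕ) (r : ℕ) : Prop :=
  ∃ h : Fin r → ℝ, ∑ j ∈ range (J + 1), (a j - ∑ i, (m - rk J π (h i) j)) ≤
    ∑ j ∈ range (J + 1), a j - r * (m + 1).choose 2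

/-- A family that is exact off one row `b` reaches the target. -/
theorem Cov.goal {n b : ℕ} {c a : ℕ → ℕ} (h1 : Cov m J π n c) (hb : b ≤ J)
    (hc : ∀ j ≤ J, j ≠ b → c j = a j) :
    Goal m J π a n ∧ (c b ≤ a b → n * (m + 1).choose 2 ≤ ∑ j ∈ range (J + 1), a j) ∧
      (a b ≤ c b → ∀ r, n ≤ r → Goal m J π a r) := by
  obtain ⟨⟨h, hh⟩, hs⟩ := h1
  have hmem : b ∈ range (J + 1) := by simp; omega
  have e1 : ∑ j ∈ (range (J + 1)).erase b, c j = ∑ j ∈ (range (J + 1)).erase b, a j :=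
    Finset.sum_congr rfl fun j hj => by
      rw [mem_erase, mem_range] at hj
      exact hc j (by omega) hj.1
  have e2 := Finset.add_sum_erase _ c hmem
  have e3 := Finset.add_sum_erase _ a hmem
  have key : ∀ f : ℕ → ℕ, (∀ j ≤ J, c j ≤ f j) →
      ∑ j ∈ range (J + 1), (a j - f j) ≤ a b - c b := by
    intro f hf
    rw [← Finset.add_sum_erase _ _ hmem, Finset.sum_eq_zero]
    · have := hf b hb
      omega
    · intro j hj
      rw [mem_erase, mem_range] at hj
      have := hf j (by omega)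
      have := hc j (by omega) hj.1
      omega
  refine ⟨⟨h, (key _ hh).trans (by omega)⟩, fun hcb => by omega, fun hab r hr => ?_⟩
  obtain ⟨k, rfl⟩ := Nat.exists_eq_add_of_le hr
  refine ⟨Fin.append h fun _ : Fin k => 0, (key _ fun j hj => ?_).trans (by omega)⟩
  rw [Fin.sum_univ_add]
  simp only [Fin.append_left]
  exact (hh j hj).trans (Nat.le_add_right _ _)

theorem Goal.pred {a : ℕ → ℕ} {r : ℕ} (hg : Goal m J π a (r + 1))
    (hr : (r + 1) * (m + 1).choose 2 ≤ ∑ j ∈ range (J + 1), a j) : Goal m J π a r := by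
  obtain ⟨h, hh⟩ := hg
  refine ⟨fun i => h i.castSucc, ?_⟩
  have h1 : ∑ j ∈ range (J + 1), (a j - ∑ i : Fin r, (m - rk J π (h i.castSucc) j)) ≤
      ∑ j ∈ range (J + 1), (a j - ∑ i, (m - rk J π (h i) j)) +
        ∑ j ∈ range (J + 1), (m - rk J π (h (Fin.last r)) j) := by
    rw [← Finset.sum_add_distrib]
    refine Finset.sum_le_sum fun j _ => ?_
    rw [Fin.sum_univ_castSucc]
    omega
  have h2 := sum_rk_le m J π (h (Fin.last r))
  rw [add_mul, one_mul] at hr hh
  refine h1.trans ?_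
  omega

theorem Goal.of_le {a : ℕ → ℕ} {n : ℕ} (hg : Goal m J π a n)
    (hn : n * (m + 1).choose 2 ≤ ∑ j ∈ range (J + 1), a j) (r : ℕ) (hr : r ≤ n) :
    Goal m J π a r := by
  induction n with
  | zero => rwa [Nat.le_zero.1 hr]
  | succ k ih =>
    rcases Nat.eq_or_lt_of_le hr with rfl | hlt
    · exact hg
    · exact ih (hg.pred hn) (le_trans (Nat.mul_le_mul_right _ (by omega)) hn) (by omega)

end Pool.Agent.P.MP_8707bd_ag
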