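import Mathlib
import Pool.Agent.P.MP_8707bd_ag.Valid

/-!
The price function and the basic patterns.
-/

namespace Pool.Agent.P.MP_8707bd_ag

open Finset

noncomputable def th (m : ℕ) : ℝ := (2 * m + 1) * (m + 1)

noncomputable def price (m E : ℕ) (p : ℕ → ℕ) (j : ℕ) : ℝ :=
  if j < m then th m * (2 * m + 4) * (m - j) else if j = m then th m
  else if j ≤ m + E then (p (j - m) : ℝ) - (j - m) + 1 / 2 else if j ≤ 2 * m then 0
  else th m * (2 * m + 4) ^ (j - 2 * m)

/-- Hypotheses on the delays `p`. -/
structure POK (m E : ℕ) (p : ℕ → ℕ) : Prop where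
  hm : 1 ≤ m
  hE : E + 1 ≤ m
  lo : ∀ i, 1 ≤ i → i ≤ E → E + 1 ≤ p i
  hi : ∀ i, 1 ≤ i → i ≤ E → p i + 1 ≤ m
  anti : ∀ i i', 1 ≤ i → i < i' → i' ≤ E → p i' < p i

variable {m E : ℕ} {p : ℕ → ℕ}

theorem th_ge (m : ℕ) : (m : ℝ) + 1 ≤ th m := by
  unfold th
  have : (0 : ℝ) ≤ m := by positivity
  nlinarith

theorem th_pos (m : ℕ) : 0 < th m := lt_of_lt_of_le (by positivity) (th_ge m)

theorem price_low {j : ℕ} (hj : j < m) : price m E p j = th m * (2 * m + 4) * (m - j) := by
  simp [price, hj]

theorem price_m : price m E p m = th m := by simp [price]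

theorem price_P (i : ℕ) (h1 : 1 ≤ i) (h2 : i ≤ E) :
    price m E p (m + i) = (p i : ℝ) - i + 1 / 2 := by
  unfold price
  rw [if_neg (by omega), if_neg (by omega), if_pos (by omega)]
  simp

theorem price_zero {j : ℕ} (h1 : m + E < j) (h2 : j ≤ 2 * m) : price m E p j = 0 := by
  unfold price
  rw [if_neg (by omega), if_neg (by omega), if_neg (by omega), if_pos h2]

theorem price_top (H : POK m E p) (s : ℕ) (hs : 1 ≤ s) :
    price m E p (2 * m + s) = th m * (2 * m + 4) ^ s := by
  have := H.hE
  unfold price
  rw [if_neg (by omega), if_neg (by omega), if_neg (by omega), if_neg (by omega)]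
  simp

theorem price_mid (H : POK m E p) {j : ℕ} (h1 : m < j) (h2 : j ≤ 2 * m) :
    0 ≤ price m E p j ∧ price m E p j ≤ m := by
  by_cases h : j ≤ m + E
  · obtain ⟨i, rfl⟩ := Nat.exists_eq_add_of_le h1.le
    rw [price_P i (by omega) (by omega)]
    have a1 : ((E + 1 : ℕ) : ℝ) ≤ p i := by exact_mod_cast H.lo i (by omega) (by omega)
    have a2 : ((p i + 1 : ℕ) : ℝ) ≤ m := by exact_mod_cast H.hi i (by omega) (by omega)
    have a3 : (i : ℝ) ≤ E := by exact_mod_cast (by omega : i ≤ E)
    have a4 : (0 : ℝ) ≤ i := by positivity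
    push_cast at a1 a2
    constructor <;> linarith
  · rw [price_zero (by omega) h2]
    exact ⟨le_rfl, by positivity⟩

theorem price_nonneg (H : POK m E p) (j : ℕ) : 0 ≤ price m E p j := by
  have := th_pos m
  rcases lt_trichotomy j m with h | rfl | h
  · rw [price_low h]
    have : (j : ℝ) < m := by exact_mod_cast h
    have : (0 : ℝ) < m - j := by linarith
    positivity
  · rw [price_m]; exact this.le
  · by_cases h2 : j ≤ 2 * m
    · exact (price_mid H h h2).1
    · obtain ⟨s, rfl⟩ := Nat.exists_eq_add_of_le (by omega : 2 * m ≤ j)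
      rw [price_top H s (by omega)]
      positivity

def patS0 (m j : ℕ) : ℕ := m - j
def patS1 (m j : ℕ) : ℕ := if j < m then j + 1 else 0
def patS2 (m j : ℕ) : ℕ := if j ≤ m then j else 0

theorem valid_S0 (H : POK m E p) (J : ℕ) :
    Valid m J (price m E p) (2 * (th m * (2 * m + 4))) (patS0 m) := by
  refine ⟨fun j => by unfold patS0; omega, fun j _ j' _ hne h0 hle => ?_⟩
  unfold patS0 at h0 hle
  have hA : 0 < th m * (2 * m + 4) := by have := th_pos m; positivity
  have hj : j < m := by omega
  have hjj : (j : ℝ) + 1 ≤ j' := by exact_mod_cast (by omega : j + 1 ≤ j')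
  have hjm : (j : ℝ) + 1 ≤ m := by exact_mod_cast hj
  rw [price_low hj]
  by_cases hj' : j' < m
  · rw [price_low hj']
    nlinarith
  · have h1 : (m : ℝ) ≤ j' := by exact_mod_cast (by omega : m ≤ j')
    have := price_nonneg H j'
    nlinarith

theorem valid_S1 (H : POK m E p) (J : ℕ) :
    Valid m J (price m E p) (th m * (2 * m + 4) - 1) (patS1 m) := by
  refine ⟨fun j => by unfold patS1; split_ifs <;> omega, fun j _ j' _ hne h0 hle => ?_⟩
  unfold patS1 at h0 hle
  have h1 := th_ge m
  have hm0 : (0 : ℝ) ≤ m := by positivity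
  have hj0 : (0 : ℝ) ≤ j := by positivity
  have hA : (m : ℝ) + 2 ≤ th m * (2 * m + 4) := by nlinarith
  have hj : j < m := by
    by_contra hc
    simp [hc] at h0
  rw [price_low hj]
  rcases lt_trichotomy j' m with hj' | rfl | hj'
  · rw [price_low hj']
    simp only [hj, hj', if_true] at hle
    have : (j' : ℝ) + 1 ≤ j := by exact_mod_cast (by omega : j' + 1 ≤ j)
    nlinarith
  · rw [price_m]
    nlinarith
  · have h2 : (m : ℝ) + 1 ≤ j' := by exact_mod_cast hj'
    have := price_nonneg H j'
    nlinarith

theorem valid_S2 (H : POK m E p) (J : ℕ) :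
    Valid m J (price m E p) (th m * (2 * m + 4) - 2 * th m) (patS2 m) := by
  refine ⟨fun j => by unfold patS2; split_ifs <;> omega, fun j _ j' _ hne h0 hle => ?_⟩
  unfold patS2 at h0 hle
  have h1 := th_pos m
  have hm0 : (0 : ℝ) ≤ m := by positivity
  have hj : j ≤ m := by
    by_contra hc
    simp [hc] at h0
  simp only [hj, if_true] at h0 hle
  have hj1 : (1 : ℝ) ≤ j := by exact_mod_cast h0
  have hG : (th m * (2 * m + 4) - 2 * th m) * j + price m E p j ≤
      th m * (2 * m + 4) * m - 2 * th m * j + th m := by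
    rcases Nat.eq_or_lt_of_le hj with rfl | h
    · rw [price_m]; nlinarith
    · rw [price_low h]; nlinarith
  by_cases hj' : j' ≤ m
  · simp only [hj', if_true] at hle
    rw [price_low (by omega : j' < m)]
    have : (j' : ℝ) + 1 ≤ j := by exact_mod_cast (by omega : j' + 1 ≤ j)
    nlinarith
  · have h2 : (m : ℝ) + 1 ≤ j' := by exact_mod_cast (by omega : m + 1 ≤ j')
    have := price_nonneg H j'
    have h3 : th m * (2 * m + 2) * (m + 1) ≤ th m * (2 * m + 2) * j' :=
      mul_le_mul_of_nonneg_left h2 (by positivity)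
    nlinarith

def patL (m x j : ℕ) : ℕ :=
  if j = m then m - x else if m < j ∧ j ≤ 2 * m then 2 * m - j + (if j ≤ m + x then 1 else 0)
  else 0

theorem valid_L (H : POK m E p) (J x : ℕ) (hx : x ≤ m) :
    Valid m J (price m E p) (th m / (x + 1 / 2)) (patL m x) := by
  refine ⟨fun j => by unfold patL; split_ifs <;> omega, fun j _ j' _ hne h0 hle => ?_⟩
  set η := th m / (x + 1 / 2) with hη
  have hx0 : (0 : ℝ) ≤ x := by positivity
  have hxm : (x : ℝ) ≤ m := by exact_mod_cast hx
  have e1 : th m = η * (x + 1 / 2) := by rw [hη]; field_simp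
  have e0 : 0 < η := by have := th_pos m; positivity
  have e2 : 2 * ((m : ℝ) + 1) ≤ η := by
    rw [hη, le_div_iff₀ (by positivity)]
    unfold th
    nlinarith
  -- upper and lower estimates in terms of a position
  have up : ∀ j, 0 < patL m x j → j ≠ m →
      m < j ∧ j ≤ 2 * m ∧ η * j + price m E p j < η * (j + 1 / 2) := by
    intro j h0 hj
    unfold patL at h0
    have : m < j ∧ j ≤ 2 * m := by
      by_contra hc
      simp [hj, hc] at h0
    have h2 := (price_mid H this.1 this.2).2
    exact ⟨this.1, this.2, by nlinarith⟩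
  have low : ∀ j, j < m → η * (2 * m + 1 / 2) < η * j + price m E p j := by
    intro j hj
    rw [price_low hj, e1]
    have h1 : (j : ℝ) + 1 ≤ m := by exact_mod_cast hj
    have h2 : (0 : ℝ) ≤ j := by positivity
    have h3 : 2 * (m : ℝ) + 1 / 2 < j + (x + 1 / 2) * (2 * m + 4) * (m - j) := by
      have : 0 ≤ (x : ℝ) * (2 * m + 4) * (m - j) := by
        have : (0 : ℝ) ≤ m - j := by linarith
        positivity
      nlinarith
    nlinarith
  have hb : η * m + price m E p m = η * (m + x + 1 / 2) := by rw [price_m, e1]; ring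
  have n' := price_nonneg H j'
  by_cases hj : j = m
  · subst hj
    rw [hb]
    rcases lt_trichotomy j' j with h | h | h
    · have := low j' h
      nlinarith
    · exact absurd h hne
    · have : j + x + 1 ≤ j' := by
        unfold patL at hle h0
        simp only [if_true, hne, if_false] at hle h0
        split_ifs at hle <;> omega
      have : (j : ℝ) + x + 1 ≤ j' := by exact_mod_cast this
      nlinarith
  · obtain ⟨u1, u2, u3⟩ := up j h0 hj
    have u2' : (j : ℝ) ≤ 2 * m := by exact_mod_cast u2
    rcases lt_trichotomy j' m with h | h | h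
    · have := low j' h
      nlinarith
    · subst h
      rw [hb]
      have : j ≤ j' + x := by
        unfold patL at hle h0
        simp only [if_true, hj, if_false, u1, u2, and_self] at hle h0
        split_ifs at hle h0 <;> omega
      have : (j : ℝ) ≤ j' + x := by exact_mod_cast this
      nlinarith
    · have : j + 1 ≤ j' := by
        unfold patL at hle h0
        simp only [if_true, hj, if_false, u1, u2, and_self, h.ne', h, true_and] at hle h0
        split_ifs at hle h0 <;> omega
      have : (j : ℝ) + 1 ≤ j' := by exact_mod_cast this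
      nlinarith

def patR (m c k j : ℕ) : ℕ :=
  if j = 2 * m + c then k
  else if m + c ≤ j ∧ j < 2 * m + c then j - (m + c) + (if m + c + k ≤ j then 1 else 0) else 0

theorem valid_R (H : POK m E p) (J c k : ℕ) (hc : 1 ≤ c) (hk : k ≤ m) :
    Valid m J (price m E p) (-(th m * (2 * m + 4) ^ c / (m - k + 1 / 2))) (patR m c k) := by
  refine ⟨fun j => by unfold patR; split_ifs <;> omega, fun j _ j' _ hne h0 hle => ?_⟩
  set η := th m * (2 * m + 4) ^ c / (m - k + 1 / 2) with hη
  have hk0 : (0 : ℝ) ≤ k := by positivity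
  have hkm : (k : ℝ) ≤ m := by exact_mod_cast hk
  have hm0 : (0 : ℝ) ≤ m := by positivity
  have hθ := th_pos m
  have hd : (0 : ℝ) < m - k + 1 / 2 := by linarith
  have e1 : th m * (2 * m + 4) ^ c = η * (m - k + 1 / 2) := by
    rw [hη, div_mul_cancel₀ _ hd.ne']
  have e0 : 0 < η := by positivity
  have hB : (1 : ℝ) ≤ 2 * m + 4 := by linarith
  have small : ∀ j, m < j → j < 2 * m + c → price m E p j < η / 2 := by
    intro j h1 h2
    obtain ⟨c', rfl⟩ := Nat.exists_eq_add_of_le' hc
    have a1 : price m E p j ≤ th m * (2 * m + 4) ^ c' := by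
      by_cases h3 : j ≤ 2 * m
      · have := (price_mid H h1 h3).2
        have h4 := th_ge m
        have h5 : (1 : ℝ) ≤ (2 * m + 4) ^ c' := one_le_pow₀ hB
        nlinarith
      · obtain ⟨s, rfl⟩ := Nat.exists_eq_add_of_le (by omega : 2 * m ≤ j)
        rw [price_top H s (by omega)]
        exact mul_le_mul_of_nonneg_left (pow_le_pow_right₀ hB (by omega)) hθ.le
    have a2 : th m * (2 * m + 4) ^ c' * (2 * m + 4) < η / 2 * (2 * m + 4) := by
      rw [mul_assoc, ← pow_succ, e1]
      nlinarith
    have := lt_of_mul_lt_mul_right a2 (by linarith)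
    linarith
  have top : -η * ((2 * m + c : ℕ) : ℝ) + price m E p (2 * m + c) =
      -η * (m + c + k) + η / 2 := by
    rw [price_top H c hc, e1]; push_cast; ring
  have big : ∀ j, 2 * m + c < j → -η * (m + c) + η / 2 < -η * j + price m E p j := by
    intro j hj
    obtain ⟨s, rfl⟩ := Nat.exists_eq_add_of_le hj.le
    have hs : (1 : ℝ) ≤ s := by exact_mod_cast (by omega : 1 ≤ s)
    rw [add_assoc, price_top H (c + s) (by omega), pow_add, ← mul_assoc, e1]
    have b1 : 1 + (s : ℝ) * (2 * m + 3) ≤ (1 + (2 * m + 3)) ^ s :=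
      one_add_mul_le_pow (by linarith) s
    rw [show (1 : ℝ) + (2 * m + 3) = 2 * m + 4 by ring] at b1
    have b2 : (m : ℝ) + s + 1 / 2 < (m - k + 1 / 2) * (2 * m + 4) ^ s := by
      have : (0 : ℝ) ≤ (m - k) * (2 * m + 4) ^ s := by
        have : (0 : ℝ) ≤ m - k := by linarith
        positivity
      nlinarith
    push_cast
    nlinarith
  have n' := price_nonneg H j'
  by_cases hj : j = 2 * m + c
  · subst hj
    rw [top]
    rcases lt_trichotomy j' (2 * m + c) with h | h | h
    · have : j' + 1 ≤ m + c + k := by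
        unfold patR at hle h0
        simp only [if_true, hne, if_false] at hle h0
        split_ifs at hle <;> omega
      have : (j' : ℝ) + 1 ≤ m + c + k := by exact_mod_cast this
      nlinarith
    · exact absurd h hne
    · have := big j' h
      nlinarith
  · have u : m + c ≤ j ∧ j < 2 * m + c := by
      by_contra hc
      unfold patR at h0
      simp [hj, hc] at h0
    have u3 := small j (by omega) u.2
    have u1 : (m : ℝ) + c ≤ j := by exact_mod_cast u.1
    rcases lt_trichotomy j' (2 * m + c) with h | h | h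
    · have : j' + 1 ≤ j := by
        unfold patR at hle h0
        simp only [if_true, hj, if_false, u, and_self, h.ne, h, and_true] at hle h0
        split_ifs at hle h0 <;> omega
      have : (j' : ℝ) + 1 ≤ j := by exact_mod_cast this
      nlinarith
    · subst h
      rw [top]
      have : m + c + k ≤ j := by
        unfold patR at hle h0
        simp only [if_true, hj, if_false, u, and_self] at hle h0
        split_ifs at hle h0 <;> omega
      have : (m : ℝ) + c + k ≤ j := by exact_mod_cast this
      nlinarith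
    · have := big j' h
      nlinarith

/-- number of delays that are at least `i` -/
def cnt (E : ℕ) (p : ℕ → ℕ) (i : ℕ) : ℕ := ((Icc 1 E).filter fun l => i ≤ p l).card

def patP (m E : ℕ) (p : ℕ → ℕ) (j : ℕ) : ℕ :=
  if m < j ∧ j ≤ m + E then m - p (j - m) + (j - m)
  else if m + E < j ∧ j ≤ 2 * m then 2 * m - j + 1 + cnt E p (j - m) else 0

theorem cnt_le (i : ℕ) : cnt E p i ≤ E := by
  unfold cnt
  exact (card_filter_le _ _).trans (by simp)

theorem cnt_anti {i i' : ℕ} (h : i ≤ i') : cnt E p i' ≤ cnt E p i := by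
  unfold cnt
  refine card_le_card fun l hl => ?_
  simp only [mem_filter] at hl ⊢
  exact ⟨hl.1, h.trans hl.2⟩

theorem cnt_ge (H : POK m E p) {i l : ℕ} (h2 : l ≤ E) (h : i ≤ p l) :
    l ≤ cnt E p i := by
  unfold cnt
  calc l = (Icc 1 l).card := by simp
    _ ≤ _ := by
      refine card_le_card fun a ha => ?_
      simp only [mem_filter, mem_Icc] at ha ⊢
      refine ⟨⟨ha.1, by omega⟩, ?_⟩
      rcases Nat.eq_or_lt_of_le ha.2 with rfl | hlt
      · exact h
      · exact h.trans (H.anti a l ha.1 hlt h2).le

theorem cnt_lt (H : POK m E p) {i l : ℕ} (h1 : 1 ≤ l) (h : p l < i) :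
    cnt E p i + 1 ≤ l := by
  unfold cnt
  have : ((Icc 1 E).filter fun l => i ≤ p l).card ≤ (Ico 1 l).card := by
    refine card_le_card fun a ha => ?_
    simp only [mem_filter, mem_Icc, mem_Ico] at ha ⊢
    refine ⟨ha.1.1, ?_⟩
    by_contra hc
    rcases Nat.eq_or_lt_of_le (not_lt.1 hc) with rfl | hlt
    · omega
    · have := H.anti l a h1 hlt ha.1.2
      omega
  simp only [Nat.card_Ico] at this
  omega

theorem patP_1 (i : ℕ) (h1 : 1 ≤ i) (h2 : i ≤ E) : patP m E p (m + i) = m - p i + i := by
  unfold patP
  rw [if_pos (by omega)]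
  simp

theorem patP_2 (i : ℕ) (h1 : E < i) (h2 : i ≤ m) :
    patP m E p (m + i) = m - i + 1 + cnt E p i := by
  unfold patP
  rw [if_neg (by omega), if_pos (by omega)]
  simp only [add_tsub_cancel_left]
  omega

theorem patP_0 (H : POK m E p) (j : ℕ) (h : j ≤ m ∨ 2 * m < j) : patP m E p j = 0 := by
  have := H.hE
  unfold patP
  rw [if_neg (by omega), if_neg (by omega)]

theorem valid_P (H : POK m E p) (J : ℕ) : Valid m J (price m E p) 1 (patP m E p) := by
  have hE := H.hE
  refine ⟨fun j => ?_, fun j _ j' _ hne h0 hle => ?_⟩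
  · unfold patP
    split_ifs with h1 h2
    · have := H.lo (j - m) (by omega) (by omega)
      have := H.hi (j - m) (by omega) (by omega)
      omega
    · have := cnt_le (E := E) (p := p) (j - m)
      omega
    · omega
  have hj : m < j ∧ j ≤ 2 * m := by
    by_contra hc
    rw [patP_0 H j (by omega)] at h0
    omega
  obtain ⟨i, rfl⟩ := Nat.exists_eq_add_of_le hj.1.le
  have hθ := th_ge m
  have hm0 : (0 : ℝ) ≤ m := by positivity
  have hup : (1 : ℝ) * ((m + i : ℕ) : ℝ) + price m E p (m + i) ≤ 2 * m := by
    by_cases hi : i ≤ E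
    · rw [price_P i (by omega) hi]
      have : ((p i + 1 : ℕ) : ℝ) ≤ m := by exact_mod_cast H.hi i (by omega) hi
      push_cast at this ⊢
      linarith
    · rw [price_zero (by omega) hj.2]
      have : ((m + i : ℕ) : ℝ) ≤ ((2 * m : ℕ) : ℝ) := by exact_mod_cast hj.2
      push_cast at this ⊢
      linarith
  by_cases hj' : m < j' ∧ j' ≤ 2 * m
  · obtain ⟨i', rfl⟩ := Nat.exists_eq_add_of_le hj'.1.le
    by_cases hi : i ≤ E <;> by_cases hi' : i' ≤ E
    · rw [price_P i (by omega) hi, price_P i' (by omega) hi']
      rw [patP_1 i (by omega) hi, patP_1 i' (by omega) hi'] at hle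
      have a1 := H.hi i (by omega) hi
      have a2 := H.hi i' (by omega) hi'
      have : p i < p i' := by
        rcases lt_trichotomy i i' with h | h | h
        · have := H.anti i i' (by omega) h hi'
          omega
        · omega
        · exact H.anti i' i (by omega) h hi
      have : (p i : ℝ) < p i' := by exact_mod_cast this
      push_cast
      linarith
    · rw [price_P i (by omega) hi, price_zero (by omega) hj'.2]
      rw [patP_1 i (by omega) hi, patP_2 i' (by omega) (by omega)] at hle
      have a1 := H.hi i (by omega) hi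
      have : p i + 1 ≤ i' := by
        by_contra hc
        have := cnt_ge H hi (by omega : i' ≤ p i)
        omega
      have : (p i : ℝ) + 1 ≤ i' := by exact_mod_cast this
      push_cast
      linarith
    · rw [price_P i' (by omega) hi', price_zero (by omega) hj.2]
      rw [patP_1 i' (by omega) hi', patP_2 i (by omega) (by omega)] at hle
      have a1 := H.hi i' (by omega) hi'
      have : i ≤ p i' := by
        by_contra hc
        have := cnt_lt H (by omega : 1 ≤ i') (by omega : p i' < i)
        omega
      have : (i : ℝ) ≤ p i' := by exact_mod_cast this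
      push_cast
      linarith
    · rw [price_zero (by omega) hj.2, price_zero (by omega) hj'.2]
      rw [patP_2 i (by omega) (by omega), patP_2 i' (by omega) (by omega)] at hle
      have : i < i' := by
        by_contra hc
        have := cnt_anti (E := E) (p := p) (by omega : i' ≤ i)
        omega
      have : (i : ℝ) < i' := by exact_mod_cast this
      push_cast
      linarith
  · refine lt_of_le_of_lt hup ?_
    rcases lt_trichotomy j' m with h | h | h
    · rw [price_low h]
      have h1 : (j' : ℝ) + 1 ≤ m := by exact_mod_cast h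
      have h2 : (0 : ℝ) ≤ j' := by positivity
      have h3 : 2 * (m : ℝ) + 4 ≤ th m * (2 * m + 4) := by nlinarith
      nlinarith
    · subst h
      rw [price_m]
      linarith
    · have h1 : ((2 * m + 1 : ℕ) : ℝ) ≤ j' := by exact_mod_cast (by omega : 2 * m + 1 ≤ j')
      have := price_nonneg H j'
      push_cast at h1
      linarith

end Pool.Agent.P.MP_8707bd_ag
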