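import Mathlib
import Pool.Agent.P.MP_8707bd_ag.Tents

/-!
The recursion that fixes the number of points in each window.
-/

namespace Pool.Agent.P.MP_8707bd_ag

open Finset

structure SeqOK (m κ X l : ℕ) (w K res : ℕ → ℕ) : Prop where
  zero : res 0 = l
  div : ∀ n, res n + 6 * m = 3 * m * w n + K n
  lt : ∀ n, K n < 3 * m
  two : ∀ n, 2 ≤ w n
  succ : ∀ n, res (n + 1) + (if n = 0 then X else 0) + 6 * (m + 1) =
    κ + K n + 3 * ∑ k ∈ range (n + 1), w k

def seqAux (m κ X l : ℕ) : ℕ → ℕ × ℕ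
  | 0 => (l, 0)
  | n + 1 =>
    (κ + ((seqAux m κ X l n).1 + 6 * m) % (3 * m) +
        3 * ((seqAux m κ X l n).2 + ((seqAux m κ X l n).1 + 6 * m) / (3 * m)) -
        (if n = 0 then X else 0) - 6 * (m + 1),
      (seqAux m κ X l n).2 + ((seqAux m κ X l n).1 + 6 * m) / (3 * m))

theorem exists_seq (m κ X l : ℕ) (hm : 1 ≤ m) (hκ : 18 * m ≤ κ) (hX : 2 * X + 6 ≤ κ) :
    ∃ w K res : ℕ → ℕ, SeqOK m κ X l w K res := by
  have two : ∀ a : ℕ, 2 ≤ (a + 6 * m) / (3 * m) := fun a => by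
    rw [Nat.le_div_iff_mul_le (by omega)]
    omega
  have hs : ∀ n, (seqAux m κ X l n).2 =
      ∑ k ∈ range n, ((seqAux m κ X l k).1 + 6 * m) / (3 * m) := by
    intro n
    induction n with
    | zero => simp [seqAux]
    | succ n ih => rw [sum_range_succ, ← ih]; simp [seqAux]
  refine ⟨fun n => ((seqAux m κ X l n).1 + 6 * m) / (3 * m),
    fun n => ((seqAux m κ X l n).1 + 6 * m) % (3 * m), fun n => (seqAux m κ X l n).1,
    rfl, fun n => (Nat.div_add_mod _ _).symm, fun n => Nat.mod_lt _ (by omega),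
    fun n => two _, fun n => ?_⟩
  rw [sum_range_succ, ← hs]
  have := two (seqAux m κ X l n).1
  simp only [seqAux]
  split_ifs <;> omega

def sW (w : ℕ → ℕ) (n : ℕ) : ℕ := ∑ k ∈ range n, w k

def sT (w : ℕ → ℕ) (n : ℕ) : ℕ := ∑ k ∈ range n, sW w (k + 1)

theorem sW_succ (w : ℕ → ℕ) (n : ℕ) : sW w (n + 1) = sW w n + w n := sum_range_succ _ _

theorem sT_succ (w : ℕ → ℕ) (n : ℕ) : sT w (n + 1) = sT w n + sW w (n + 1) :=
  sum_range_succ _ _

theorem sT_eq (w : ℕ → ℕ) (N : ℕ) : sT w N = ∑ n ∈ range N, w n * (N - n) := by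
  induction N with
  | zero => simp [sT]
  | succ N ih =>
    rw [sT_succ, ih, sW, sum_range_succ, sum_range_succ, ← add_assoc, ← sum_add_distrib]
    congr 1
    · refine sum_congr rfl fun n hn => ?_
      rw [mem_range] at hn
      rw [show N + 1 - n = N - n + 1 by omega]
      ring
    · simp

theorem sT_eq' (w : ℕ → ℕ) (N M : ℕ) (h : N ≤ M) :
    sT w N = ∑ n ∈ range M, w n * (N - n) := by
  rw [sT_eq]
  refine sum_subset (range_subset_range.2 h) fun n _ hn => ?_
  rw [mem_range] at hn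
  rw [show N - n = 0 by omega, mul_zero]

variable {m κ X l : ℕ} {w K res : ℕ → ℕ}

theorem SeqOK.inv (H : SeqOK m κ X l w K res) (N : ℕ) :
    res N + 6 * N + 3 * m * sW w N + (if N = 0 then 0 else X) = l + κ * N + 3 * sT w N := by
  induction N with
  | zero => simp [sW, sT, H.zero]
  | succ N ih =>
    have h1 := H.succ N
    have h2 := H.div N
    change _ = _ + 3 * sW w (N + 1) at h1
    rw [sT_succ]
    rw [sW_succ] at h1 ⊢
    simp only [Nat.add_eq_zero_iff, one_ne_zero, and_false, if_false]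
    split_ifs at ih h1 <;> nlinarith

theorem SeqOK.sW_ge (H : SeqOK m κ X l w K res) (N : ℕ) : 2 * N ≤ sW w N := by
  induction N with
  | zero => simp
  | succ N ih => have := H.two N; rw [sW_succ]; omega

theorem SeqOK.sT_bound (H : SeqOK m κ X l w K res) (N : ℕ) :
    6 * m * sT w N + κ * N ≤ 2 * N * (l + 6 * m) + κ * N ^ 2 + 6 * N * sT w N := by
  induction N with
  | zero => simp [sT]
  | succ N ih =>
    have h1 := H.inv N
    have h2 := H.div N
    have h3 : 3 * m * sW w (N + 1) ≤ l + κ * N + 3 * sT w N + 6 * m := by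
      rw [sW_succ, mul_add]
      omega
    rw [sT_succ]
    nlinarith [Nat.zero_le (sW w (N + 1)), Nat.zero_le (N * sW w (N + 1))]

theorem SeqOK.sT_le (H : SeqOK m κ X l w K res) (E : ℕ) (hE : 1 ≤ E) (h3 : 3 * E ≤ m)
    (hf : 2 * E * l + κ * E ^ 2 + 18 * m * E ≤ 4 * m ^ 2 + 2 * E + κ * E) :
    sT w E + 2 ≤ m + E := by
  have h1 := H.sT_bound E
  by_contra hc
  obtain ⟨a, rfl⟩ := Nat.exists_eq_add_of_le h3
  obtain ⟨e, rfl⟩ := Nat.exists_eq_add_of_le' hE
  obtain ⟨b, hb⟩ := Nat.exists_eq_add_of_le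
    (by omega : 3 * (e + 1) + a + e ≤ sT w (e + 1))
  rw [hb] at h1
  nlinarith [Nat.zero_le (a * b), Nat.zero_le (e * b), Nat.zero_le (a * a), Nat.zero_le (a * e),
    Nat.zero_le (e * e)]

/-- the delays -/
def delay (E : ℕ) (w : ℕ → ℕ) (i : ℕ) : ℕ := sT w (E + 1 - i) + 2 * i - (E + 1)

theorem SeqOK.sT_step (H : SeqOK m κ X l w K res) (N N' : ℕ) (h : N ≤ N') :
    sT w N + 2 * (N + 1) * (N' - N) ≤ sT w N' := by
  induction N', h using Nat.le_induction with
  | base => simp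
  | succ n hn ih =>
    have := H.sW_ge (n + 1)
    rw [sT_succ, show n + 1 - N = n - N + 1 by omega]
    nlinarith

theorem SeqOK.sT_ge (H : SeqOK m κ X l w K res) (N : ℕ) : 2 * N ≤ sT w N := by
  have := H.sT_step 0 N (Nat.zero_le _)
  simp only [zero_add, mul_one, tsub_zero] at this
  omega

theorem SeqOK.delay_anti (H : SeqOK m κ X l w K res) (E i i' : ℕ) (h : i < i') (h' : i' ≤ E) :
    delay E w i' < delay E w i := by
  have h1 := H.sT_step (E + 1 - i') (E + 1 - i) (by omega)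
  have h2 := H.sT_ge (E + 1 - i')
  have h3 : 2 * 2 * (E + 1 - i - (E + 1 - i')) ≤
      2 * (E + 1 - i' + 1) * (E + 1 - i - (E + 1 - i')) :=
    Nat.mul_le_mul_right _ (by omega)
  unfold delay
  omega

theorem SeqOK.pok (H : SeqOK m κ X l w K res) (E : ℕ) (hm : 1 ≤ m) (h3 : 3 * E ≤ m)
    (hf : 2 * E * l + κ * E ^ 2 + 18 * m * E ≤ 4 * m ^ 2 + 2 * E + κ * E) :
    POK m E (delay E w) := by
  refine ⟨hm, by omega, fun i h1 h2 => ?_, fun i h1 h2 => ?_,
    fun i i' _ h h' => H.delay_anti E i i' h h'⟩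
  · have := H.sT_ge (E + 1 - i)
    unfold delay
    omega
  · have h4 := H.sT_le E (by omega) h3 hf
    have h5 : delay E w i ≤ delay E w 1 := by
      rcases Nat.eq_or_lt_of_le h1 with rfl | h
      · exact le_rfl
      · exact (H.delay_anti E 1 i h h2).le
    have h6 : delay E w 1 = sT w E + 2 - (E + 1) := by simp [delay]
    omega

theorem SeqOK.delay_eq (H : SeqOK m κ X l w K res) (E i : ℕ) (h : i ≤ E) :
    (delay E w i : ℤ) = sT w (E + 1 - i) + 2 * i - (E + 1) := by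
  have := H.sT_ge (E + 1 - i)
  unfold delay
  omega

end Pool.Agent.P.MP_8707bd_ag
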