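import Mathlib
import Pool.Agent.P.MP_8707bd_ag.Seq

/-!
Groups of patterns and their total coverage.
-/

namespace Pool.Agent.P.MP_8707bd_ag

open Finset

/-- A family of `n` patterns, with prescribed coverage off the row `m` and bounds on it. -/
def Cv (m E : ℕ) (p : ℕ → ℕ) (n lo hi : ℕ) (fa fb fc : ℕ → ℤ) : Prop :=
  ∃ c : ℕ → ℕ, Cov m (2 * m + E + 1) (price m E p) n c ∧ lo ≤ c m ∧ c m ≤ hi ∧
    (∀ j, j < m → (c j : ℤ) = fa j) ∧ (∀ i, 1 ≤ i → i ≤ m → (c (m + i) : ℤ) = fb i) ∧
    (∀ i, 1 ≤ i → i ≤ E + 1 → (c (2 * m + i) : ℤ) = fc i)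

variable {m E : ℕ} {p : ℕ → ℕ}

theorem Cv.add {n lo hi n' lo' hi' : ℕ} {fa fb fc fa' fb' fc' : ℕ → ℤ}
    (h : Cv m E p n lo hi fa fb fc) (h' : Cv m E p n' lo' hi' fa' fb' fc') :
    Cv m E p (n + n') (lo + lo') (hi + hi') (fun j => fa j + fa' j) (fun j => fb j + fb' j)
      (fun j => fc j + fc' j) := by
  obtain ⟨c, h1, h2, h3, h4, h5, h6⟩ := h
  obtain ⟨c', h1', h2', h3', h4', h5', h6'⟩ := h'
  refine ⟨_, h1.add h1', add_le_add h2 h2', add_le_add h3 h3', fun j hj => ?_,
    fun i a b => ?_, fun i a b => ?_⟩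
  · push_cast; rw [h4 j hj, h4' j hj]
  · push_cast; rw [h5 i a b, h5' i a b]
  · push_cast; rw [h6 i a b, h6' i a b]

theorem Cv.mul {n lo hi : ℕ} {fa fb fc : ℕ → ℤ} (h : Cv m E p n lo hi fa fb fc) (k : ℕ) :
    Cv m E p (k * n) (k * lo) (k * hi) (fun j => k * fa j) (fun j => k * fb j)
      (fun j => k * fc j) := by
  obtain ⟨c, h1, h2, h3, h4, h5, h6⟩ := h
  refine ⟨_, h1.mul k, Nat.mul_le_mul_left _ h2, Nat.mul_le_mul_left _ h3, fun j hj => ?_,
    fun i a b => ?_, fun i a b => ?_⟩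
  · push_cast; rw [h4 j hj]
  · push_cast; rw [h5 i a b]
  · push_cast; rw [h6 i a b]

theorem Cv.congr {n lo hi n' lo' hi' : ℕ} {fa fb fc fa' fb' fc' : ℕ → ℤ}
    (h : Cv m E p n lo hi fa fb fc) (hn : n = n') (hlo : lo' ≤ lo) (hhi : hi ≤ hi')
    (ha : ∀ j, j < m → fa j = fa' j) (hb : ∀ i, 1 ≤ i → i ≤ m → fb i = fb' i)
    (hc : ∀ i, 1 ≤ i → i ≤ E + 1 → fc i = fc' i) : Cv m E p n' lo' hi' fa' fb' fc' := by
  obtain ⟨c, h1, h2, h3, h4, h5, h6⟩ := h
  subst hn
  exact ⟨c, h1, hlo.trans h2, h3.trans hhi, fun j hj => (h4 j hj).trans (ha j hj),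
    fun i a b => (h5 i a b).trans (hb i a b), fun i a b => (h6 i a b).trans (hc i a b)⟩

theorem Cv.sum {ι : Type*} (s : Finset ι) (n hi : ι → ℕ) (fb fc : ι → ℕ → ℤ)
    (h : ∀ x ∈ s, Cv m E p (n x) 0 (hi x) (fun _ => 0) (fb x) (fc x)) :
    Cv m E p (∑ x ∈ s, n x) 0 (∑ x ∈ s, hi x) (fun _ => 0) (fun j => ∑ x ∈ s, fb x j)
      (fun j => ∑ x ∈ s, fc x j) := by
  classical
  induction s using Finset.induction_on with
  | empty => exact ⟨_, Cov.zero, by simp⟩
  | insert a s ha ih =>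
    refine ((h a (mem_insert_self _ _)).add
      (ih fun x hx => h x (mem_insert_of_mem hx))).congr ?_ ?_ ?_ ?_ ?_ ?_ <;>
    simp [Finset.sum_insert ha]

theorem cv_S0 (H : POK m E p) :
    Cv m E p 1 0 0 (fun j => m - j) (fun _ => 0) (fun _ => 0) := by
  refine ⟨_, Cov.single (valid_S0 H _) 0 (by omega) fun j _ _ => ?_, ?_, ?_, fun j hj => ?_,
    fun i a b => ?_, fun i a b => ?_⟩ <;> unfold patS0 <;> beta_reduce <;> omega

theorem cv_S1 (H : POK m E p) :
    Cv m E p 1 0 0 (fun j => j + 1) (fun _ => 0) (fun _ => 0) := by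
  refine ⟨_, Cov.single (valid_S1 H _) 0 (by omega) fun j _ _ => ?_, ?_, ?_, fun j hj => ?_,
    fun i a b => ?_, fun i a b => ?_⟩ <;> unfold patS1 <;> beta_reduce <;>
    (try split_ifs) <;> omega

theorem cv_S2 (H : POK m E p) :
    Cv m E p 1 m m (fun j => j) (fun _ => 0) (fun _ => 0) := by
  refine ⟨_, Cov.single (valid_S2 H _) 1 (by omega) fun j _ _ => ?_, ?_, ?_, fun j hj => ?_,
    fun i a b => ?_, fun i a b => ?_⟩ <;> unfold patS2 <;> beta_reduce <;>
    (try split_ifs) <;> omega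

theorem cv_L (H : POK m E p) (x : ℕ) (hx : x ≤ m) :
    Cv m E p 1 (m - x) (m - x) (fun _ => 0) (fun i => m - i + if i ≤ x then 1 else 0)
      (fun _ => 0) := by
  refine ⟨_, Cov.single (valid_L H _ x hx) (if x = m then m + 1 else m)
    (by split_ifs <;> omega) fun j h1 h2 => ?_, ?_, ?_, fun j hj => ?_,
    fun i a b => ?_, fun i a b => ?_⟩
  · unfold patL; split_ifs at * <;> omega
  · simp [patL]
  · simp [patL]
  · unfold patL; beta_reduce; split_ifs at * <;> omega
  · unfold patL; beta_reduce; split_ifs at * <;> omega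
  · unfold patL; beta_reduce; split_ifs at * <;> omega

theorem cv_R (H : POK m E p) (c k : ℕ) (hc : 1 ≤ c) (hc' : c ≤ E + 1) (hk : k ≤ m) :
    Cv m E p 1 0 0 (fun _ => 0)
      (fun i => if c ≤ i then (i : ℤ) - c + (if c + k ≤ i then 1 else 0) else 0)
      (fun i => if i = c then k else if i < c then
        (m : ℤ) + i - c + (if c + k ≤ m + i then 1 else 0) else 0) := by
  have := H.hE
  refine ⟨_, Cov.single (valid_R H _ c k hc hk) (if k = 0 then m + c else m + c + 1)
    (by split_ifs <;> omega) fun j h1 h2 => ?_, ?_, ?_, fun j hj => ?_,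
    fun i a b => ?_, fun i a b => ?_⟩
  · unfold patR; split_ifs at * <;> omega
  · simp
  · unfold patR; split_ifs at * <;> omega
  · unfold patR; beta_reduce; split_ifs at * <;> omega
  · unfold patR; beta_reduce; split_ifs at * <;> omega
  · unfold patR; beta_reduce; split_ifs at * <;> omega

theorem cv_P (H : POK m E p) :
    Cv m E p 1 0 0 (fun _ => 0) (fun i => patP m E p (m + i)) (fun _ => 0) := by
  have := H.hE
  refine ⟨_, Cov.single (valid_P H _) (m + 1) (by omega) fun j h1 h2 => ?_, ?_, ?_,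
    fun j hj => ?_, fun i a b => rfl, fun i a b => ?_⟩
  · unfold patP; split_ifs at * <;> omega
  · simp
  · rw [patP_0 H m (by omega)]
  · rw [patP_0 H j (by omega)]; rfl
  · rw [patP_0 H _ (by omega)]; rfl

theorem cv_Theta (H : POK m E p) (c k : ℕ) (hc : 1 ≤ c) (hc' : c ≤ E + 1) (hk : k + E ≤ m) :
    Cv m E p 2 0 m (fun _ => 0) (fun i => (m : ℤ) + 1 - i + (i - c : ℕ))
      (fun i => if i = c then k else if i < c then (m : ℤ) + i - c + 1 else 0) := by
  refine ((cv_R H c k hc hc' (by omega)).add (cv_L H (c + k - 1) (by omega))).congr rfl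
    (by omega) (by omega) (fun j _ => by simp) (fun i a b => ?_) (fun i a b => ?_)
  · split_ifs <;> omega
  · split_ifs <;> omega

theorem sum_six (K : ℕ) : ∑ t ∈ range 6, (K + t) / 6 = K := by
  have h1 : ∀ t, (K + t) / 6 = K / 6 + (K % 6 + t) / 6 := fun t => by omega
  have h2 : ∀ s, s < 6 → ∑ t ∈ range 6, (s + t) / 6 = s := by decide
  simp only [h1, sum_add_distrib, h2 _ (Nat.mod_lt K (by norm_num)), sum_const, card_range,
    smul_eq_mul]
  omega

theorem cv_window (H : POK m E p) (h3 : 3 * E ≤ m) (c K w : ℕ) (hc : 1 ≤ c) (hc' : c ≤ E + 1)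
    (hK : K < 3 * m) (hw : 2 ≤ w) :
    Cv m E p (6 + 3 * w) 0 (6 * m) (fun _ => 0)
      (fun i => 6 * ((m : ℤ) + 1 - i) + 3 * w * (i - c : ℕ))
      (fun i => if i = c then (K : ℤ) + 3 * m * w - 6 * m else if i < c then
        6 + 3 * w * ((m : ℤ) + i - c) else 0) := by
  have hT := Cv.sum (range 6) (fun _ => 2) (fun _ => m) _ _
    (fun t ht => cv_Theta H c ((K + t) / 6) hc hc' (by rw [mem_range] at ht; omega))
  obtain ⟨v, rfl⟩ := Nat.exists_eq_add_of_le' hw
  refine (hT.add ((cv_R H c m hc hc' le_rfl).mul (3 * v))).congr (by simp; ring) (by simp)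
    (by simp) (fun j _ => by simp) (fun i a b => ?_) (fun i a b => ?_)
  · simp only [sum_const, card_range, nsmul_eq_mul]
    by_cases h : c ≤ i
    · rw [if_pos h, if_neg (by omega), Nat.cast_sub h]; push_cast; ring
    · rw [if_neg h, show i - c = 0 by omega]; push_cast; ring
  · by_cases h : i = c
    · simp only [h, if_true]
      rw [← Nat.cast_sum, sum_six]
      push_cast
      ring
    · simp only [h, if_false]
      by_cases h' : i < c
      · simp only [h', if_true, sum_const, card_range, nsmul_eq_mul]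
        rw [if_neg (by omega)]; push_cast; ring
      · simp [h']

variable {κ X l : ℕ} {w K res : ℕ → ℕ}

theorem cv_windows (S : SeqOK m κ X l w K res) (H : POK m E p) (h3 : 3 * E ≤ m) :
    Cv m E p (6 * (E + 1) + 3 * sW w (E + 1)) 0 (6 * m * (E + 1)) (fun _ => 0)
      (fun i => 6 * (E + 1) * ((m : ℤ) + 1 - i) +
        3 * (i * sW w (E + 1) - sT w (E + 1) + sT w (E + 1 - i)))
      (fun i => (l : ℤ) + κ * ((E : ℤ) + 1 - i) - if i = E + 1 then 0 else X) := by
  refine (Cv.sum (range (E + 1)) _ _ _ _ (fun n hn => cv_window H h3 (E + 1 - n) (K n) (w n)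
    (by rw [mem_range] at hn; omega) (by omega) (S.lt n) (S.two n))).congr ?_ le_rfl ?_
    (fun _ _ => rfl) (fun i a b => ?_) (fun i a b => ?_)
  · rw [sum_add_distrib, ← mul_sum, sW]; simp; ring
  · simp; linarith
  · rw [sT_eq' w (E + 1 - i) (E + 1) (by omega), sT_eq w (E + 1), sW]
    push_cast
    rw [mul_sum, ← sum_sub_distrib, ← sum_add_distrib, mul_sum, sum_add_distrib]
    congr 1
    · simp; ring
    · refine sum_congr rfl fun n hn => ?_
      rw [mem_range] at hn
      have : ((i - (E + 1 - n) : ℕ) : ℤ) =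
          i - ((E + 1 - n : ℕ) : ℤ) + ((E + 1 - i - n : ℕ) : ℤ) := by omega
      rw [this]; ring
  · obtain ⟨N, hN⟩ : ∃ N, E + 1 = i + N := ⟨E + 1 - i, by omega⟩
    have h1 := S.inv N
    have h2 := S.div N
    rw [← sum_subset (range_subset_range.2 (by omega : N + 1 ≤ E + 1)), sum_range_succ,
      if_pos (by omega)]
    · have e : ∑ n ∈ range N, (if i = E + 1 - n then (K n : ℤ) + 3 * m * w n - 6 * m
          else if i < E + 1 - n then 6 + 3 * w n * ((m : ℤ) + i - (E + 1 - n : ℕ)) else 0) =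
          6 * N + 3 * m * sW w N - 3 * sT w N := by
        rw [sT_eq, sW]
        push_cast
        rw [mul_sum, mul_sum, show (6 * N : ℤ) = ∑ n ∈ range N, 6 by simp; ring,
          ← sum_add_distrib, ← sum_sub_distrib]
        refine sum_congr rfl fun n hn => ?_
        rw [mem_range] at hn
        rw [if_neg (by omega), if_pos (by omega)]
        have : ((E + 1 - n : ℕ) : ℤ) = i + ((N - n : ℕ) : ℤ) := by omega
        rw [this]; ring
      rw [e]
      have e2 : (E : ℤ) + 1 - i = N := by omega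
      rw [e2]
      by_cases hN0 : N = 0
      · rw [if_pos hN0] at h1
        rw [if_pos (by omega)]
        zify at h1 h2 ⊢
        linarith
      · rw [if_neg hN0] at h1
        rw [if_neg (by omega)]
        zify at h1 h2
        linarith
    · intro n hn hn'
      rw [mem_range] at hn hn'
      rw [if_neg (by omega), if_neg (by omega)]

theorem sum_ind (s : Finset ℕ) (i : ℕ) :
    ∑ x ∈ s, (if i ≤ x then (1 : ℤ) else 0) = (s.filter fun x => i ≤ x).card := by
  rw [card_filter]; push_cast; rfl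

theorem card_ge (m i : ℕ) (hi : 1 ≤ i) :
    ((Icc 1 (m - 1)).filter fun x => i ≤ x).card = m - i := by
  have : ((Icc 1 (m - 1)).filter fun x => i ≤ x) = Ico i m := by
    ext x; simp only [mem_filter, mem_Icc, mem_Ico]; omega
  rw [this]; simp

theorem cv_full (H : POK m E p) :
    Cv m E p (m - 1) 0 ((m - 1) * m) (fun _ => 0) (fun i => m * ((m : ℤ) - i)) (fun _ => 0) := by
  have hm := H.hm
  refine (Cv.sum (Icc 1 (m - 1)) (fun _ => 1) (fun _ => m) _ _ (fun x hx =>
    (cv_L H x (by rw [mem_Icc] at hx; omega)).congr rfl (Nat.zero_le _) (Nat.sub_le _ _)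
      (fun _ _ => rfl) (fun _ _ _ => rfl) (fun _ _ _ => rfl))).congr (by simp) le_rfl (by simp)
    (fun _ _ => rfl) (fun i a b => ?_) (fun i a b => by simp)
  rw [sum_add_distrib, sum_ind, card_ge m i a]
  simp only [sum_const, Nat.card_Icc, add_tsub_cancel_right, nsmul_eq_mul]
  rw [Nat.cast_sub hm, Nat.cast_sub b]
  push_cast; ring

theorem cv_gadget (H : POK m E p) :
    Cv m E p (m - E) 0 ((m - 1 - E) * m) (fun _ => 0)
      (fun i => ((m : ℤ) - E + 1) * (m - i) + 1 - if i ≤ E then (p i : ℤ) - 2 * i + E + 1 else 0)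
      (fun _ => 0) := by
  have hE := H.hE
  have hinj : Set.InjOn p (Icc 1 E : Finset ℕ) := by
    intro a ha b hb hab
    simp only [coe_Icc, Set.mem_Icc] at ha hb
    rcases lt_trichotomy a b with h | h | h
    · have := H.anti a b ha.1 h hb.2; omega
    · exact h
    · have := H.anti b a hb.1 h ha.2; omega
  have hsub : (Icc 1 E).image p ⊆ Icc 1 (m - 1) := by
    intro x hx
    simp only [mem_image, mem_Icc] at hx ⊢
    obtain ⟨a, ha, rfl⟩ := hx
    have := H.lo a ha.1 ha.2
    have := H.hi a ha.1 ha.2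
    omega
  have hcard : (Icc 1 (m - 1) \ (Icc 1 E).image p).card = m - 1 - E := by
    rw [card_sdiff_of_subset hsub, card_image_of_injOn hinj]; simp
  refine ((cv_P H).add (Cv.sum (Icc 1 (m - 1) \ (Icc 1 E).image p) (fun _ => 1) (fun _ => m) _ _
    (fun x hx => (cv_L H x (by rw [mem_sdiff, mem_Icc] at hx; omega)).congr rfl (Nat.zero_le _)
      (Nat.sub_le _ _) (fun _ _ => rfl) (fun _ _ _ => rfl) (fun _ _ _ => rfl)))).congr
    (by simp [hcard]; omega) le_rfl (by simp [hcard]) (fun _ _ => by simp) (fun i a b => ?_)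
    (fun i a b => by simp)
  have e1 : ∑ x ∈ Icc 1 (m - 1) \ (Icc 1 E).image p, (if i ≤ x then (1 : ℤ) else 0) =
      (m : ℤ) - i - cnt E p i := by
    rw [sum_sdiff_eq_sub hsub, sum_ind, card_ge m i a, sum_image hinj, Nat.cast_sub b, cnt,
      card_filter]
    push_cast; rfl
  rw [sum_add_distrib, e1]
  simp only [sum_const, hcard, nsmul_eq_mul]
  have e2 : ((m - 1 - E : ℕ) : ℤ) = m - 1 - E := by omega
  rw [e2]
  by_cases hi : i ≤ E
  · have h1 := H.hi i a hi
    have h2 : cnt E p i = E := by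
      refine le_antisymm (cnt_le i) (cnt_ge H le_rfl ?_)
      have := H.lo E (by omega) le_rfl
      omega
    rw [patP_1 i a hi, if_pos hi, h2]
    push_cast [Nat.cast_sub (by omega : p i ≤ m)]
    ring
  · rw [patP_2 i (by omega) b, if_neg hi]
    push_cast [Nat.cast_sub b]
    ring

end Pool.Agent.P.MP_8707bd_ag
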