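import Mathlib
import Pool.Agent.P.MP_8707bd_ag.Cover

/-!
The complete family of patterns.
-/

namespace Pool.Agent.P.MP_8707bd_ag

open Finset

variable {m E κ X l : ℕ} {w K res : ℕ → ℕ}

theorem cv_upper (S : SeqOK m κ X l w K res) (H : POK m E (delay E w)) (h3 : 3 * E ≤ m)
    (hκ : 18 * m ≤ κ) (hX : 2 * X + 6 ≤ κ) (s : ℕ) (hs : s ≤ 1) :
    Cv m E (delay E w) (κ + 6 * sW w (E + 1) + 1 - s) ((1 - s) * m ^ 2) ((8 * m + 5 + X) * m)
      (fun _ => 0) (fun i => (l : ℤ) + κ * ((m : ℤ) + E + 1 - i) - X)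
      (fun i => (l : ℤ) + κ * ((E : ℤ) + 1 - i) - if i = E + 1 then 0 else X) := by
  have hm := H.hm
  have r1 := S.succ E
  have r2 := S.inv (E + 1)
  have r3 := S.lt E
  have r4 := S.sW_ge (E + 1)
  change _ = _ + 3 * sW w (E + 1) at r1
  rw [if_neg (by omega)] at r2
  obtain ⟨X', hX', hX1⟩ : ∃ X', X' = (if E = 0 then X else 0) ∧ X' ≤ X :=
    ⟨_, rfl, by split_ifs <;> omega⟩
  rw [← hX'] at r1
  obtain ⟨n1, hn1⟩ : ∃ n1, res (E + 1) = 2 * m + 3 + n1 := ⟨res (E + 1) - (2 * m + 3), by omega⟩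
  have hsm : s * m ≤ m := by nlinarith
  obtain ⟨n0, hn0⟩ : ∃ n0, n0 + K E + 3 * E + s * m = 5 * m + 2 + X' :=
    ⟨5 * m + 2 + X' - (K E + 3 * E + s * m), by omega⟩
  have hs1 : s * (m - 1) + s = s * m := by
    obtain ⟨k, rfl⟩ := Nat.exists_eq_add_of_le' hm
    simp [mul_add]
  refine ((((((cv_windows S H h3).add ((cv_R H 1 0 le_rfl (by omega) (by omega)).mul 2)).add
    ((cv_L H m le_rfl).mul n1)).add ((cv_gadget H).mul 3)).add ((cv_full H).mul s)).add
    ((cv_L H 0 (by omega)).mul n0)).congr (by omega) ?_ ?_ (fun _ _ => by simp)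
    (fun i a b => ?_) (fun i a b => ?_)
  · simp only [mul_zero, add_zero, tsub_self, tsub_zero, zero_add]
    interval_cases s
    · simp only [tsub_zero, one_mul, pow_two]
      exact Nat.mul_le_mul_right _ (by omega)
    · simp
  · simp only [mul_zero, add_zero, tsub_self, tsub_zero]
    calc _ = (6 * (E + 1) + 3 * (m - 1 - E) + s * (m - 1) + n0) * m := by ring
      _ ≤ _ := Nat.mul_le_mul_right _ (by omega)
  · have e : (if i ≤ E then (delay E w i : ℤ) - 2 * i + E + 1 else 0) = sT w (E + 1 - i) := by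
      split_ifs with h
      · rw [S.delay_eq E i h]; ring
      · rw [show E + 1 - i = 0 by omega]; simp [sT]
    rw [e, if_pos a, if_pos (by omega), if_pos b, if_neg (by omega)]
    rw [hn1] at r1 r2
    zify at r1 r2 hn0
    push_cast
    linear_combination r2 + ((m : ℤ) - i) * r1 + ((m : ℤ) - i) * hn0
  · simp only [mul_zero, add_zero, add_eq_left]
    split_ifs <;> omega

theorem cv_total (S : SeqOK m κ X l w K res) (H : POK m E (delay E w)) (h3 : 3 * E ≤ m)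
    (hκ : 18 * m ≤ κ) (hX : 2 * X + 6 ≤ κ) (a : ℕ → ℕ) (haJ : a (2 * m + E + 1) = l)
    (ha : ∀ j, j < 2 * m + E + 1 → a j + X = l + κ * (2 * m + E + 1 - j))
    (s : ℕ) (hs : s ≤ 1) (u w0 w1 : ℕ) (h0 : a 0 = u * m + w0) (h1 : u = κ + w0 + w1) :
    ∃ c, Cov m (2 * m + E + 1) (price m E (delay E w)) (2 * u + 6 * sW w (E + 1) + 1 - s) c ∧
      (∀ j ≤ 2 * m + E + 1, j ≠ m → c j = a j) ∧ w1 * m + (1 - s) * m ^ 2 ≤ c m ∧
      c m ≤ w1 * m + (8 * m + 5 + X) * m := by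
  obtain ⟨c, c1, c2, c3, c4, c5, c6⟩ := ((((cv_S0 H).mul u).add ((cv_S1 H).mul w0)).add
    ((cv_S2 H).mul w1)).add (cv_upper S H h3 hκ hX s hs)
  refine ⟨c, c1.congr (by omega) fun _ => rfl, fun j hj hjm => ?_, by omega, by omega⟩
  have hz : ∀ j, j < 2 * m + E + 1 → (a j : ℤ) + X = l + κ * (2 * m + E + 1 - j) := by
    intro j hj
    have := ha j hj
    zify [hj.le] at this
    exact this
  suffices (c j : ℤ) = a j by exact_mod_cast this
  rcases lt_or_gt_of_ne hjm with h | h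
  · rw [c4 j h]
    have e1 := hz j (by omega)
    have e2 := hz 0 (by omega)
    zify at h0 h1
    push_cast at e2
    linear_combination e2 - e1 - h0 - (j : ℤ) * h1
  · by_cases h2 : j ≤ 2 * m
    · obtain ⟨i, rfl⟩ := Nat.exists_eq_add_of_le h.le
      rw [c5 i (by omega) (by omega)]
      have e1 := hz (m + i) (by omega)
      push_cast at e1 ⊢
      linear_combination -e1
    · obtain ⟨i, rfl⟩ := Nat.exists_eq_add_of_le (by omega : 2 * m ≤ j)
      rw [c6 i (by omega) (by omega)]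
      by_cases h4 : i = E + 1
      · subst h4
        rw [← add_assoc, haJ]
        simp
      · have e1 := hz (2 * m + i) (by omega)
        simp only [h4, if_false]
        push_cast at e1 ⊢
        linear_combination -e1

theorem abstract_tiling (m E κ X l : ℕ) (hm : 1 ≤ m) (h3 : 3 * E ≤ m)
    (hκ : 18 * m ≤ κ) (hX : 2 * X + 6 ≤ κ)
    (hf : 2 * E * l + κ * E ^ 2 + 18 * m * E ≤ 4 * m ^ 2 + 2 * E + κ * E)
    (a : ℕ → ℕ) (haJ : a (2 * m + E + 1) = l)
    (ha : ∀ j, j < 2 * m + E + 1 → a j + X = l + κ * (2 * m + E + 1 - j)) (r : ℕ) :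
    ∃ π : ℕ → ℝ, Goal m (2 * m + E + 1) π a r := by
  obtain ⟨w, K, res, S⟩ := exists_seq m κ X l hm hκ hX
  have H := S.pok E hm h3 hf
  refine ⟨price m E (delay E w), ?_⟩
  have T := cv_total S H h3 hκ hX a haJ ha
  have a0 := ha 0 (by omega)
  have am := ha m (by omega)
  rw [show 2 * m + E + 1 - m = m + E + 1 by omega] at am
  rw [tsub_zero] at a0
  have a0m : a 0 = a m + κ * m := by nlinarith
  have amge : κ * (m + 1) ≤ a m + X := by nlinarith [Nat.zero_le (κ * E)]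
  -- the extreme values of `u`
  obtain ⟨u1, hu1, hu1'⟩ : ∃ u, a 0 + κ ≤ u * (m + 1) ∧ u * (m + 1) ≤ a 0 + κ + m := by
    refine ⟨(a 0 + κ + m) / (m + 1), ?_, Nat.div_mul_le_self _ _⟩
    have := Nat.lt_div_mul_add (a := a 0 + κ + m) (b := m + 1) (by omega)
    omega
  obtain ⟨u2, hu2, hu2'⟩ : ∃ u, u * m ≤ a 0 ∧ a 0 < u * m + m :=
    ⟨a 0 / m, Nat.div_mul_le_self _ _, Nat.lt_div_mul_add (by omega)⟩
  have hu1m : u1 * m ≤ a 0 := by
    by_contra hc
    have : (a 0 + 1) * (m + 1) ≤ u1 * m * (m + 1) := Nat.mul_le_mul_right _ (by omega)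
    have : u1 * (m + 1) * m ≤ (a 0 + κ + m) * m := Nat.mul_le_mul_right _ hu1'
    nlinarith
  have h12 : u1 ≤ u2 := by
    by_contra hc
    have : (u2 + 1) * m ≤ u1 * m := Nat.mul_le_mul_right _ (by omega)
    nlinarith
  have T' : ∀ u s, u1 ≤ u → u ≤ u2 → s ≤ 1 → ∃ w0 w1, a 0 = u * m + w0 ∧ u = κ + w0 + w1 ∧
      ∃ c, Cov m (2 * m + E + 1) (price m E (delay E w)) (2 * u + 6 * sW w (E + 1) + 1 - s) c ∧
      (∀ j ≤ 2 * m + E + 1, j ≠ m → c j = a j) ∧ w1 * m + (1 - s) * m ^ 2 ≤ c m ∧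
      c m ≤ w1 * m + (8 * m + 5 + X) * m := by
    intro u s h1 h2 hs
    have e1 : u * m ≤ u2 * m := Nat.mul_le_mul_right _ h2
    have e2 : u1 * (m + 1) ≤ u * (m + 1) := Nat.mul_le_mul_right _ h1
    have e3 : u * (m + 1) = u * m + u := by ring
    have g1 : a 0 = u * m + (a 0 - u * m) := by omega
    have g2 : u = κ + (a 0 - u * m) + (u - κ - (a 0 - u * m)) := by omega
    exact ⟨_, _, g1, g2, T s hs u _ _ g1 g2⟩
  by_cases hlo : r ≤ 2 * u1 + 6 * sW w (E + 1)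
  · obtain ⟨w0, w1, g1, g2, c, c1, c2, -, c4⟩ := T' u1 1 le_rfl h12 le_rfl
    obtain ⟨G1, G2, -⟩ := c1.goal (by omega : m ≤ _) c2
    refine G1.of_le (G2 ?_) r (by omega)
    have e1 : w1 ≤ m := by
      have : u1 * (m + 1) = u1 * m + u1 := by ring
      omega
    have e2 : w1 * m ≤ m * m := Nat.mul_le_mul_right _ e1
    have e3 : (2 * X + 6) * (m + 1) ≤ κ * (m + 1) := Nat.mul_le_mul_right _ hX
    have e4 : 18 * m * (m + 1) ≤ κ * (m + 1) := Nat.mul_le_mul_right _ hκ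
    nlinarith
  by_cases hhi : 2 * u2 + 6 * sW w (E + 1) + 1 ≤ r
  · obtain ⟨w0, w1, g1, g2, c, c1, c2, c3, -⟩ := T' u2 0 h12 le_rfl (by omega)
    obtain ⟨-, -, G3⟩ := c1.goal (by omega : m ≤ _) c2
    refine G3 ?_ r (by omega)
    have e1 : w0 + 1 ≤ m := by omega
    have e2 : (w0 + 1) * (m + 1) ≤ m * (m + 1) := Nat.mul_le_mul_right _ e1
    simp only [tsub_zero, one_mul] at c3
    have e3 : u2 * m = κ * m + w0 * m + w1 * m := by rw [g2]; ring
    nlinarith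
  · obtain ⟨w0, w1, g1, g2, c, c1, c2, -, -⟩ := T' ((r - 6 * sW w (E + 1)) / 2)
      (1 - r % 2) (by omega) (by omega) (by omega)
    have := (c1.goal (by omega : m ≤ _) c2).1
    rwa [show 2 * ((r - 6 * sW w (E + 1)) / 2) + 6 * sW w (E + 1) + 1 - (1 - r % 2) = r by omega]
      at this

end Pool.Agent.P.MP_8707bd_ag
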