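import Mathlib
import Pool.Agent.P.MP_8707bd_ag.Defs

/-!
The order of vanishing at a point is a valuation.
-/

namespace Pool.Agent.P.MP_8707bd_ag

open MvPolynomial

theorem lin_mem (p : Fin 3 → ℂ) (hp : p 2 ≠ 0) (a : Fin 3) :
    (X a - C (p a / p 2) * X 2 : MvPolynomial (Fin 3) ℂ) ∈ ptIdeal p := by
  refine Ideal.subset_span ⟨?_, ?_⟩
  · exact (isHomogeneous_X ℂ a).sub ((isHomogeneous_X ℂ 2).C_mul _)
  · simp [hp]

/-- The deformation to the tangent cone at `p`. -/
noncomputable def cone (p : Fin 3 → ℂ) :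
    MvPolynomial (Fin 3) ℂ →ₐ[ℂ] Polynomial (MvPolynomial (Fin 3) ℂ) :=
  aeval fun a => Polynomial.C (C (p a / p 2) * X 2) +
    Polynomial.X * Polynomial.C (X a - C (p a / p 2) * X 2)

theorem cone_eval_one (p : Fin 3 → ℂ) (G : MvPolynomial (Fin 3) ℂ) :
    Polynomial.eval 1 (cone p G) = G := by
  induction G using MvPolynomial.induction_on with
  | C a => simp [cone, Polynomial.algebraMap_apply]
  | add f g hf hg => simp [hf, hg]
  | mul_X f a hf => rw [map_mul, Polynomial.eval_mul, hf]; simp [cone]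

theorem cone_mem_rees (p : Fin 3 → ℂ) (hp : p 2 ≠ 0) (G : MvPolynomial (Fin 3) ℂ) :
    cone p G ∈ reesAlgebra (ptIdeal p) := by
  induction G using MvPolynomial.induction_on with
  | C a =>
    have : cone p (C a) = algebraMap (MvPolynomial (Fin 3) ℂ) _ (C a) := by
      simp [cone, Polynomial.algebraMap_apply]
    rw [this]
    exact Subalgebra.algebraMap_mem _ _
  | add f g hf hg => rw [map_add]; exact add_mem hf hg
  | mul_X f a hf =>
    rw [map_mul]
    refine mul_mem hf ?_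
    simp only [cone, aeval_X]
    refine add_mem (Subalgebra.algebraMap_mem _ _) ?_
    rw [Polynomial.X_mul_C, Polynomial.C_mul_X_eq_monomial, reesAlgebra.monomial_mem, pow_one]
    exact lin_mem p hp a

theorem lin_eq (L : MvPolynomial (Fin 3) ℂ) (hL : L.IsHomogeneous 1) :
    ∃ c : Fin 3 → ℂ, L = ∑ a, C (c a) * X a := by
  have : L ∈ Submodule.span ℂ (Set.range (X : Fin 3 → MvPolynomial (Fin 3) ℂ)) := by
    rw [← homogeneousSubmodule_one_eq_span_X]; exact hL
  obtain ⟨c, hc⟩ := (Submodule.mem_span_range_iff_exists_fun ℂ).1 this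
  exact ⟨c, by rw [← hc]; simp [smul_eq_C_mul]⟩

theorem X_dvd_cone (p : Fin 3 → ℂ) (hp : p 2 ≠ 0) :
    ptIdeal p ≤ (Ideal.span {Polynomial.X}).comap (cone p) := by
  refine Ideal.span_le.2 fun L hL => ?_
  obtain ⟨c, rfl⟩ := lin_eq L hL.1
  have h := hL.2
  simp only [Fin.sum_univ_three, map_add, map_mul, eval_C, eval_X] at h
  simp only [SetLike.mem_coe, Ideal.mem_comap, Ideal.mem_span_singleton, Polynomial.X_dvd_iff]
  simp only [cone, Fin.sum_univ_three, map_add, map_mul, aeval_C, aeval_X,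
    Polynomial.algebraMap_apply, algebraMap_eq, Polynomial.coeff_add, Polynomial.coeff_C_mul,
    Polynomial.coeff_X_mul_zero, Polynomial.coeff_C_zero, add_zero]
  have h2 : c 0 * (p 0 / p 2) + c 1 * (p 1 / p 2) + c 2 * (p 2 / p 2) = 0 := by
    field_simp
    linear_combination h
  have h3 := congrArg (C : ℂ → MvPolynomial (Fin 3) ℂ) h2
  simp only [map_add, map_mul, map_zero] at h3
  linear_combination (X 2 : MvPolynomial (Fin 3) ℂ) * h3

theorem mem_pow_iff (p : Fin 3 → ℂ) (hp : p 2 ≠ 0) (G : MvPolynomial (Fin 3) ℂ) (k : ℕ) :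
    G ∈ ptIdeal p ^ k ↔ Polynomial.X ^ k ∣ cone p G := by
  constructor
  · intro h
    have h1 := Ideal.pow_right_mono (X_dvd_cone p hp) k h
    have h2 := Ideal.le_comap_pow (cone p) k h1
    rwa [Ideal.mem_comap, Ideal.span_singleton_pow, Ideal.mem_span_singleton] at h2
  · intro h
    rw [← cone_eval_one p G, Polynomial.eval_eq_sum_range]
    refine Ideal.sum_mem _ fun j _ => ?_
    rw [one_pow, mul_one]
    by_cases hj : j < k
    · rw [Polynomial.X_pow_dvd_iff.1 h j hj]; exact zero_mem _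
    · exact Ideal.pow_le_pow_right (by omega)
        ((mem_reesAlgebra_iff _ _).1 (cone_mem_rees p hp G) j)

theorem mem_pow_of_mul (p : Fin 3 → ℂ) (hp : p 2 ≠ 0) (F H : MvPolynomial (Fin 3) ℂ) (n m : ℕ)
    (hF : F ∉ ptIdeal p ^ (n + 1)) (hFH : F * H ∈ ptIdeal p ^ m) : H ∈ ptIdeal p ^ (m - n) := by
  rw [mem_pow_iff p hp, pow_dvd_iff_le_emultiplicity] at *
  rw [map_mul, emultiplicity_mul Polynomial.prime_X] at hFH
  have h1 : emultiplicity Polynomial.X (cone p F) ≤ n := by
    rw [not_le] at hF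
    exact Order.le_of_lt_add_one (by exact_mod_cast hF)
  rw [ENat.natCast_sub, tsub_le_iff_left]
  exact hFH.trans (add_le_add_left h1 _)

end Pool.Agent.P.MP_8707bd_ag
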