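import Mathlib
import Pool.Agent.P.MP_8707bd_ag.Order

/-!
The trivial lower bound for the dimension of a system of curves with fat base points.
-/

namespace Pool.Agent.P.MP_8707bd_ag

open MvPolynomial Finset

/-- pairs `(a, b)` with `a + b < n` -/
def pairs (n : ℕ) : Finset (Σ _ : ℕ, ℕ × ℕ) := (range n).sigma fun k => antidiagonal k

theorem card_pairs (n : ℕ) : (pairs n).card = (n + 1).choose 2 := by
  unfold pairs
  rw [card_sigma]
  induction n with
  | zero => simp
  | succ k ih =>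
    rw [sum_range_succ, ih, Nat.choose_succ_succ' (k + 1) 1]
    simp [add_comm]

noncomputable def expo (d : ℕ) (q : ℕ × ℕ) : Fin 3 →₀ ℕ :=
  Finsupp.equivFunOnFinite.symm ![q.1, q.2, d - q.1 - q.2]

instance fin_hom (d : ℕ) : Module.Finite ℂ (homogeneousSubmodule (Fin 3) ℂ d) :=
  Module.Finite.iff_fg.2 (homogeneousSubmodule_fg _ _ d)

instance fin_fat {r : ℕ} (p : Fin r → Fin 3 → ℂ) (μ : Fin r → ℕ) (d : ℕ) :
    Module.Finite ℂ (fat p μ d) :=
  Submodule.finiteDimensional_of_le (inf_le_left : fat p μ d ≤ homogeneousSubmodule (Fin 3) ℂ d)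

theorem degree_three (s : Fin 3 →₀ ℕ) : s.degree = s 0 + s 1 + s 2 := by
  rw [Finsupp.degree_eq_sum, Fin.sum_univ_three]

theorem finrank_hom_ge (d : ℕ) :
    (d + 2).choose 2 ≤ Module.finrank ℂ (homogeneousSubmodule (Fin 3) ℂ d) := by
  have hdeg : ∀ q : pairs (d + 1), (expo d q.1.2).degree = d := by
    rintro ⟨⟨k, a, b⟩, hq⟩
    simp only [pairs, mem_sigma, mem_range, HasAntidiagonal.mem_antidiagonal] at hq
    rw [degree_three]
    simp only [expo, Finsupp.equivFunOnFinite_symm_apply_apply, Matrix.cons_val]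
    omega
  let v : pairs (d + 1) → homogeneousSubmodule (Fin 3) ℂ d := fun q =>
    ⟨monomial (expo d q.1.2) 1, isHomogeneous_monomial _ (hdeg q)⟩
  have hinj : Function.Injective fun q : pairs (d + 1) => expo d q.1.2 := by
    rintro ⟨⟨k, a, b⟩, hq⟩ ⟨⟨k', a', b'⟩, hq'⟩ h
    simp only [pairs, mem_sigma, mem_range, HasAntidiagonal.mem_antidiagonal] at hq hq'
    have h0 := DFunLike.congr_fun h 0
    have h1 := DFunLike.congr_fun h 1
    simp only [expo, Finsupp.equivFunOnFinite_symm_apply_apply, Matrix.cons_val] at h0 h1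
    subst h0 h1
    obtain rfl : k = k' := by omega
    rfl
  have hv : LinearIndependent ℂ v := by
    refine LinearIndependent.of_comp (homogeneousSubmodule (Fin 3) ℂ d).subtype ?_
    have := (basisMonomials (Fin 3) ℂ).linearIndependent.comp _ hinj
    rwa [coe_basisMonomials] at this
  have := hv.fintype_card_le_finrank
  rwa [Fintype.card_coe, card_pairs] at this

/-- shear moving the point `p` -/
noncomputable def shear (c : Fin 3 → ℂ) : MvPolynomial (Fin 3) ℂ →ₐ[ℂ] MvPolynomial (Fin 3) ℂ :=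
  aeval ![X 0 + C (c 0) * X 2, X 1 + C (c 1) * X 2, X 2]

theorem shear_shear (c : Fin 3 → ℂ) (G : MvPolynomial (Fin 3) ℂ) :
    shear (-c) (shear c G) = G := by
  have : (shear (-c)).comp (shear c) = AlgHom.id ℂ _ := by
    refine algHom_ext fun a => ?_
    fin_cases a <;> simp [shear]
  exact DFunLike.congr_fun this G

theorem shear_hom (c : Fin 3 → ℂ) {G : MvPolynomial (Fin 3) ℂ} {d : ℕ} (h : G.IsHomogeneous d) :
    (shear c G).IsHomogeneous d := by
  have := h.aeval (n := 1) (![X 0 + C (c 0) * X 2, X 1 + C (c 1) * X 2, X 2] :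
    Fin 3 → MvPolynomial (Fin 3) ℂ) fun a => by
      fin_cases a
      · exact (isHomogeneous_X ℂ 0).add ((isHomogeneous_X ℂ 2).C_mul _)
      · exact (isHomogeneous_X ℂ 1).add ((isHomogeneous_X ℂ 2).C_mul _)
      · exact isHomogeneous_X ℂ 2
  rwa [one_mul] at this

theorem mem_pow_of_coeff (p : Fin 3 → ℂ) (hp : p 2 ≠ 0) (m d : ℕ) (G : MvPolynomial (Fin 3) ℂ)
    (hG : G.IsHomogeneous d)
    (h : ∀ q ∈ pairs m, coeff (expo d q.2) (shear (fun a => p a / p 2) G) = 0) :
    G ∈ ptIdeal p ^ m := by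
  rw [← shear_shear (fun a => p a / p 2) G, (shear (fun a => p a / p 2) G).as_sum, map_sum]
  refine Ideal.sum_mem _ fun s hs => ?_
  have hdeg : s 0 + s 1 + s 2 = d := by
    rw [← degree_three]
    by_contra hc
    exact mem_support_iff.1 hs ((shear_hom _ hG).coeff_eq_zero hc)
  have hm : m ≤ s 0 + s 1 := by
    by_contra hc
    have := h ⟨s 0 + s 1, s 0, s 1⟩ (by simp [pairs]; omega)
    refine mem_support_iff.1 hs ?_
    convert this
    ext a
    fin_cases a <;> simp [expo]
    omega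
  refine Ideal.pow_le_pow_right hm ?_
  rw [shear, aeval_monomial, Finsupp.prod_fintype _ _ (by simp), Fin.prod_univ_three, pow_add]
  refine Ideal.mul_mem_left _ _ (Ideal.mul_mem_right _ _ (Ideal.mul_mem_mul
    (Ideal.pow_mem_pow ?_ _) (Ideal.pow_mem_pow ?_ _)))
  · simpa [sub_eq_add_neg] using lin_mem p hp 0
  · simpa [sub_eq_add_neg] using lin_mem p hp 1

theorem lower_bound {r : ℕ} (p : Fin r → Fin 3 → ℂ) (hp : ∀ i, p i 2 ≠ 0) (m d : ℕ) :
    (d + 2).choose 2 - r * (m + 1).choose 2 ≤ Module.finrank ℂ (fat p (fun _ => m) d) := by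
  let Λ : homogeneousSubmodule (Fin 3) ℂ d →ₗ[ℂ] (Fin r × pairs m → ℂ) :=
    LinearMap.pi fun iq => (lcoeff ℂ (expo d iq.2.1.2)) ∘ₗ
      (shear (fun a => p iq.1 a / p iq.1 2)).toLinearMap ∘ₗ (homogeneousSubmodule _ ℂ d).subtype
  have h1 := Λ.finrank_range_add_finrank_ker
  have h2 : Module.finrank ℂ (LinearMap.range Λ) ≤ r * (m + 1).choose 2 := by
    refine (Submodule.finrank_le _).trans ?_
    simp [card_pairs]
  have h3 : Module.finrank ℂ (LinearMap.ker Λ) ≤ Module.finrank ℂ (fat p (fun _ => m) d) := by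
    rw [← Submodule.finrank_map_subtype_eq]
    refine Submodule.finrank_mono ?_
    rintro _ ⟨G, hG, rfl⟩
    refine ⟨G.2, ?_⟩
    simp only [Submodule.subtype_apply, Submodule.coe_restrictScalars, SetLike.mem_coe,
      Submodule.mem_iInf]
    intro i
    refine mem_pow_of_coeff (p i) (hp i) m d G G.2 fun q hq => ?_
    exact congrFun (LinearMap.mem_ker.1 hG) (i, ⟨q, hq⟩)
  have h4 := finrank_hom_ge d
  omega

end Pool.Agent.P.MP_8707bd_ag
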