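import Mathlib
import Pool.Agent.P.MP_8707bd_ag.Assemble

/-!
The combinatorial statement for the actual row lengths.
-/

namespace Pool.Agent.P.MP_8707bd_ag

open Finset

theorem tri_sum (s n : ℕ) (h : s ≤ n) : ∑ b ∈ range n, (s - b) = (s + 1).choose 2 := by
  have h1 : ∑ b ∈ range n, (s - b) = ∑ b ∈ range s, (s - b) := by
    refine (sum_subset (range_subset_range.2 h) fun b _ hb => ?_).symm
    rw [mem_range] at hb
    omega
  rw [h1]
  clear h1 h
  induction s with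
  | zero => simp
  | succ k ih =>
    rw [sum_range_succ', Nat.choose_succ_succ' (k + 1) 1]
    simp only [Nat.reduceSubDiff, ih, tsub_zero, Nat.choose_one_right, Nat.reduceAdd]
    omega

theorem sum_rowLen (d δ J : ℕ) (h : d < (J + 1) * δ) :
    ∑ j ∈ range (J + 1), rowLen d δ j = (d + 2).choose 2 := by
  have key : ∀ n, ∑ j ∈ range n, rowLen d δ j = ∑ b ∈ range (n * δ), (d + 1 - b) := by
    intro n
    induction n with
    | zero => simp
    | succ n ih =>
      rw [sum_range_succ, ih, add_mul, one_mul, sum_range_add, rowLen]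
      congr 1
      exact sum_congr rfl fun b _ => by omega
  rw [key, tri_sum _ _ h]

theorem two_mul_choose (s : ℕ) : 2 * (s + 1).choose 2 = s * (s + 1) := by
  induction s with
  | zero => simp
  | succ k ih =>
    rw [Nat.choose_succ_succ' (k + 1) 1]
    simp only [Nat.choose_one_right, Nat.reduceAdd]
    nlinarith

theorem tiling (m d r : ℕ) (hm : 1 ≤ m) (hd : 18 * m ≤ (d / (2 * m + 1)) ^ 2) :
    ∃ (δ J : ℕ) (π : ℕ → ℝ) (h : Fin r → ℝ), 4 ≤ δ ∧ d < (J + 1) * δ ∧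
      ∑ j ∈ Finset.range (J + 1), (rowLen d δ j - ∑ i, (m - rk J π (h i) j)) ≤
        (d + 2).choose 2 - r * (m + 1).choose 2 := by
  obtain ⟨δ, hδ⟩ : ∃ δ, δ = d / (2 * m + 1) := ⟨_, rfl⟩
  rw [← hδ] at hd
  have h5 : 5 ≤ δ := by
    by_contra hc
    have : δ ^ 2 ≤ 4 ^ 2 := Nat.pow_le_pow_left (by omega) 2
    omega
  obtain ⟨ρ, hρ, hd1⟩ : ∃ ρ, ρ ≤ 2 * m ∧ d = (2 * m + 1) * δ + ρ :=
    ⟨d % (2 * m + 1), by have := Nat.mod_lt d (by omega : 0 < 2 * m + 1); omega,
      by rw [hδ, Nat.div_add_mod]⟩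
  obtain ⟨E, t, ht, hE⟩ : ∃ E t, t < δ ∧ ρ = δ * E + t :=
    ⟨ρ / δ, ρ % δ, Nat.mod_lt _ (by omega), (Nat.div_add_mod _ _).symm⟩
  have hdJ : d = (2 * m + E + 1) * δ + t := by rw [hd1, hE]; ring
  have h3 : 3 * E ≤ m := by
    by_cases h6 : 6 ≤ δ
    · have : 6 * E ≤ δ * E := Nat.mul_le_mul_right _ h6
      omega
    · have : δ = 5 := by omega
      subst this
      omega
  have hX : ∀ n, 2 * ∑ b ∈ range (n + 1), (b - (t + 1)) + n ≤ n ^ 2 := by
    intro n
    induction n with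
    | zero => simp
    | succ k ih =>
      rw [sum_range_succ]
      have : k + 1 - (t + 1) ≤ k := by omega
      nlinarith
  have hlt : d < (2 * m + E + 1 + 1) * δ := by rw [hdJ]; nlinarith
  refine (abstract_tiling m E (δ ^ 2) (∑ b ∈ range δ, (b - (t + 1)))
    ((t + 1 + 1).choose 2) hm h3 hd ?_ ?_ (rowLen d δ) ?_ ?_ r).elim fun π hh => ?_
  rotate_right
  · obtain ⟨h, hh⟩ := hh
    exact ⟨δ, _, π, h, by omega, hlt, by rwa [sum_rowLen d δ _ hlt] at hh⟩
  · obtain ⟨n, rfl⟩ := Nat.exists_eq_add_of_le' (by omega : 1 ≤ δ)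
    have := hX n
    nlinarith
  · have e1 := two_mul_choose (t + 1)
    have e2 : (δ * E + t) ^ 2 ≤ (2 * m) ^ 2 := Nat.pow_le_pow_left (by omega) 2
    have e3 : 18 * m * E ≤ δ ^ 2 * E := Nat.mul_le_mul_right _ hd
    have e4 : 2 * E * (t + 1 + 1).choose 2 = E * t * t + 3 * (E * t) + 2 * E := by
      rw [mul_comm 2 E, mul_assoc, e1]; ring
    have e5 : E * t * t ≤ E * t * δ := Nat.mul_le_mul_left _ ht.le
    have e6 : 3 * (E * t) ≤ δ * (E * t) := Nat.mul_le_mul_right _ (by omega)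
    nlinarith [Nat.zero_le (t * t)]
  · rw [← tri_sum (t + 1) δ ht, rowLen]
    refine sum_congr rfl fun b _ => ?_
    rw [hdJ]
    omega
  · intro j hj
    obtain ⟨k, hk⟩ := Nat.exists_eq_add_of_lt hj
    rw [← tri_sum (t + 1) δ ht, rowLen, ← sum_add_distrib,
      show 2 * m + E + 1 - j = k + 1 by omega,
      show δ ^ 2 * (k + 1) = ∑ b ∈ range δ, (k * δ + δ) by simp; ring, ← sum_add_distrib]
    refine sum_congr rfl fun b hb => ?_
    rw [mem_range] at hb
    have : d = j * δ + (k * δ + δ) + t := by rw [hdJ, hk]; ring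
    omega

end Pool.Agent.P.MP_8707bd_ag
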