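import Mathlib
import Pool.Agent.P.MP_8707bd_ag.Tiling
import Pool.Agent.P.MP_8707bd_ag.Lower
import Pool.Agent.P.MP_8707bd_ag.Row

/-!
Assembly of the proof.
-/

namespace Pool.Agent.P.MP_8707bd_ag

open MvPolynomial Finset

theorem hom_of_mul {F H : MvPolynomial (Fin 3) ℂ} {e d : ℕ} (hF : F.IsHomogeneous e)
    (hF0 : F ≠ 0) (h : (F * H).IsHomogeneous d) :
    H.IsHomogeneous (d - e) ∧ (H ≠ 0 → e ≤ d) := by
  let _ := MvPolynomial.gradedAlgebra (σ := Fin 3) (R := ℂ)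
  have key : ∀ k, e + k ≠ d → homogeneousComponent k H = 0 := by
    intro k hk
    have h1 := DirectSum.coe_decompose_mul_add_of_left_mem (homogeneousSubmodule (Fin 3) ℂ)
      (a := F) (b := H) (i := e) (j := k) hF
    rw [DirectSum.decompose_of_mem_ne (homogeneousSubmodule (Fin 3) ℂ) (i := d) h hk.symm] at h1
    have h2 := (mul_eq_zero.1 h1.symm).resolve_left hF0
    rw [← decomposition.decompose'_apply]
    exact h2
  constructor
  · rw [← sum_homogeneousComponent H]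
    refine IsHomogeneous.sum _ _ _ fun k _ => ?_
    by_cases hk : e + k = d
    · rw [show d - e = k by omega]; exact homogeneousComponent_isHomogeneous k H
    · rw [key k hk]; exact isHomogeneous_zero _ _ _
  · intro hH
    by_contra hc
    refine hH ?_
    rw [← sum_homogeneousComponent H]
    exact sum_eq_zero fun k _ => key k (by omega)

theorem mem_fat {r : ℕ} {p : Fin r → Fin 3 → ℂ} {μ : Fin r → ℕ} {d : ℕ}
    {G : MvPolynomial (Fin 3) ℂ} :
    G ∈ fat p μ d ↔ G.IsHomogeneous d ∧ ∀ i, G ∈ ptIdeal (p i) ^ μ i := by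
  simp [fat]

theorem rowLen_drop (d δ j e : ℕ) (hδ : 4 ≤ δ) (he : 2 * e ≤ d)
    (h : 0 < rowLen (d - 2 * e) δ j) : rowLen (d - 2 * e) δ j + 6 * e ≤ rowLen d δ j + 1 := by
  have h1 : j * δ + 2 * e ≤ d := by
    by_contra hc
    have : rowLen (d - 2 * e) δ j = 0 := sum_eq_zero fun b _ => by omega
    omega
  obtain ⟨k, rfl⟩ := Nat.exists_eq_add_of_le' (by omega : 3 ≤ δ)
  unfold rowLen
  simp only [sum_range_succ']
  have : ∑ b ∈ range k, (d - 2 * e + 1 - j * (k + 3) - (b + 1 + 1 + 1)) ≤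
      ∑ b ∈ range k, (d + 1 - j * (k + 3) - (b + 1 + 1 + 1)) :=
    sum_le_sum fun b _ => by omega
  omega

theorem bound_drop {r : ℕ} (d δ m e : ℕ) (hδ : 4 ≤ δ) (he : 2 * e ≤ d) (n ρ : Fin r → ℕ)
    (hn : ∑ i, n i + 1 = 3 * e) (j : ℕ) :
    rowLen (d - 2 * e) δ j - ∑ i, (m - n i - n i - ρ i) = 0 ∨
      rowLen (d - 2 * e) δ j - ∑ i, (m - n i - n i - ρ i) < rowLen d δ j - ∑ i, (m - ρ i) := by
  by_cases h : rowLen (d - 2 * e) δ j = 0
  · left; omega
  have h1 := rowLen_drop d δ j e hδ he (by omega)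
  have h2 : ∑ i, (m - ρ i) ≤ ∑ i, (m - n i - n i - ρ i) + 2 * ∑ i, n i := by
    rw [mul_sum, ← sum_add_distrib]
    exact sum_le_sum fun i _ => by omega
  omega

theorem exists_start (m : ℕ) (hm : 1 ≤ m) : ∃ δ, 18 * m ≤ δ ^ 2 ∧
    ((2 * m + 1) * δ + 1) * ((2 * m + 1) * δ + 2) ≤ 76 * (m + 1) * (m * (m + 1)) := by
  by_cases h : m < 72
  · have : ∀ m < 72, 1 ≤ m → ∃ δ < 37, 18 * m ≤ δ ^ 2 ∧
        ((2 * m + 1) * δ + 1) * ((2 * m + 1) * δ + 2) ≤ 76 * (m + 1) * (m * (m + 1)) := by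
      decide +kernel
    obtain ⟨δ, -, hδ⟩ := this m h hm
    exact ⟨δ, hδ⟩
  · obtain ⟨s, hs1, hs2⟩ : ∃ s, s ^ 2 ≤ 18 * m - 1 ∧ 18 * m - 1 < (s + 1) ^ 2 :=
      ⟨Nat.sqrt (18 * m - 1), Nat.sqrt_le' _, Nat.lt_succ_sqrt' _⟩
    refine ⟨s + 1, by omega, ?_⟩
    have h1 : s ^ 2 + 1 ≤ 18 * m := by omega
    have h2 : 2 * s ≤ m := by
      by_contra hc
      have : (m + 1) ^ 2 ≤ (2 * s) ^ 2 := Nat.pow_le_pow_left (by omega) 2
      nlinarith
    have h3 : (s + 1) ^ 2 ≤ 19 * m := by nlinarith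
    have h4 : 1 ≤ s := by
      by_contra hc
      have : s = 0 := by omega
      subst this
      omega
    have h5 : (2 * m + 1) * (s + 1) + 2 ≤ (2 * m + 2) * (s + 1) := by nlinarith
    calc _ ≤ ((2 * m + 2) * (s + 1)) * ((2 * m + 2) * (s + 1)) :=
          Nat.mul_le_mul (by omega) h5
      _ = 4 * (m + 1) ^ 2 * (s + 1) ^ 2 := by ring
      _ ≤ 4 * (m + 1) ^ 2 * (19 * m) := Nat.mul_le_mul_left _ h3
      _ = _ := by ring

theorem main (r m d : ℕ) (hm : 1 ≤ m) (hr : 76 * (m + 1) ≤ r) :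
    ∃ Φ : MvPolynomial (Fin r × Fin 3) ℂ, Φ ≠ 0 ∧ ∀ p : Fin r → Fin 3 → ℂ,
      MvPolynomial.eval (fun ij : Fin r × Fin 3 => p ij.1 ij.2) Φ ≠ 0 →
      Module.finrank ℂ (fat p (fun _ => m) d) = (d + 2).choose 2 - r * (m + 1).choose 2 ∧
      ∀ (F : MvPolynomial (Fin 3) ℂ) (e : ℕ) (n : Fin r → ℕ), F ≠ 0 → F.IsHomogeneous e →
        (∀ i, F ∉ ptIdeal (p i) ^ (n i + 1)) → ∑ i, n i + 1 = 3 * e →
        (∀ G ∈ fat p (fun _ => m) d, F ^ 2 ∣ G) → fat p (fun _ => m) d = ⊥ := by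
  obtain ⟨δ0, h1, h2⟩ := exists_start m hm
  obtain ⟨D, hD, hD'⟩ : ∃ D, 18 * m ≤ (D / (2 * m + 1)) ^ 2 ∧
      (D = d ∨ d ≤ D ∧ (D + 2).choose 2 ≤ r * (m + 1).choose 2) := by
    by_cases h : (2 * m + 1) * δ0 ≤ d
    · refine ⟨d, h1.trans (Nat.pow_le_pow_left ?_ 2), Or.inl rfl⟩
      rw [Nat.le_div_iff_mul_le (by omega), mul_comm]
      exact h
    · refine ⟨(2 * m + 1) * δ0, by rwa [Nat.mul_div_cancel_left _ (by omega)],
        Or.inr ⟨by omega, ?_⟩⟩
      have e1 := two_mul_choose ((2 * m + 1) * δ0 + 1)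
      have e2 := two_mul_choose m
      have e3 : 76 * (m + 1) * (m * (m + 1)) ≤ r * (m * (m + 1)) := Nat.mul_le_mul_right _ hr
      rw [← e2] at e3 h2
      have e4 : r * (2 * (m + 1).choose 2) = 2 * (r * (m + 1).choose 2) := by ring
      simp only [add_assoc, Nat.reduceAdd] at e1 h2
      omega
  obtain ⟨δ, J, π, h, hδ, hJ, hT⟩ := tiling m D r hm hD
  have hG := fun x : Fin (D + 1) × (Fin r → Fin (m + 1)) =>
    generic_bound r x.1 δ J (by omega) (by have := x.1.2; omega) (fun i => x.2 i) π h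
  choose Φ hΦ0 hΦ using hG
  refine ⟨(∏ i, X (i, 2)) * ∏ x, Φ x, mul_ne_zero (prod_ne_zero_iff.2 fun i _ => X_ne_zero _)
    (prod_ne_zero_iff.2 fun x _ => hΦ0 x), fun p hp => ?_⟩
  simp only [map_mul, map_prod, eval_X, mul_ne_zero_iff, prod_ne_zero_iff, mem_univ,
    forall_const] at hp
  obtain ⟨hp2, hpΦ⟩ := hp
  have B : ∀ d' ≤ D, ∀ μ : Fin r → ℕ, (∀ i, μ i ≤ m) → Module.finrank ℂ (fat p μ d') ≤
      ∑ j ∈ range (J + 1), (rowLen d' δ j - ∑ i, (μ i - rk J π (h i) j)) :=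
    fun d' hd' μ hμ => hΦ (⟨d', by omega⟩, fun i => ⟨μ i, by have := hμ i; omega⟩) p (hpΦ _)
  have BD := (B D le_rfl (fun _ => m) fun _ => le_rfl).trans hT
  have L := lower_bound p hp2 m d
  rcases hD' with rfl | ⟨hd, hN⟩
  · refine ⟨le_antisymm BD L, fun F e n hF0 hF hn hs hall => ?_⟩
    by_contra hne
    have hquot : ∀ G ∈ fat p (fun _ => m) D, ∃ H, G = F * (F * H) ∧
        H ∈ fat p (fun i => m - n i - n i) (D - 2 * e) ∧ (G ≠ 0 → 2 * e ≤ D) := by
      intro G hG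
      obtain ⟨H, rfl⟩ := hall G hG
      rw [mem_fat] at hG
      have q := hom_of_mul (hF.pow 2) (pow_ne_zero 2 hF0) hG.1
      refine ⟨H, by ring, mem_fat.2 ⟨by rw [mul_comm 2 e]; exact q.1, fun i => ?_⟩, fun h0 => ?_⟩
      · refine mem_pow_of_mul _ (hp2 i) F _ _ _ (hn i) (mem_pow_of_mul _ (hp2 i) F _ _ _ (hn i) ?_)
        rw [← mul_assoc, ← pow_two]
        exact hG.2 i
      · rw [mul_comm 2 e]; exact q.2 (right_ne_zero_of_mul h0)
    have he : 2 * e ≤ D := by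
      obtain ⟨G, hG, hG0⟩ := Submodule.exists_mem_ne_zero_of_ne_bot hne
      obtain ⟨H, -, -, q⟩ := hquot G hG
      exact q hG0
    have hle : Module.finrank ℂ (fat p (fun _ => m) D) ≤
        Module.finrank ℂ (fat p (fun i => m - n i - n i) (D - 2 * e)) := by
      refine le_trans (Submodule.finrank_mono ?_)
        (Submodule.finrank_map_le (LinearMap.mulLeft ℂ (F * F)) _)
      intro G hG
      obtain ⟨H, q1, q2, -⟩ := hquot G hG
      exact ⟨H, q2, by rw [q1, LinearMap.mulLeft_apply, mul_assoc]⟩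
    have hpos : 0 < Module.finrank ℂ (fat p (fun _ => m) D) := by
      rw [Nat.pos_iff_ne_zero, Ne, Submodule.finrank_eq_zero]
      exact hne
    have B' := B (D - 2 * e) (by omega) (fun i => m - n i - n i) fun i => by omega
    have drop := fun j => bound_drop D δ m e hδ he n (fun i => rk J π (h i) j) hs j
    have hlt : ∑ j ∈ range (J + 1), (rowLen (D - 2 * e) δ j -
        ∑ i, (m - n i - n i - rk J π (h i) j)) <
        ∑ j ∈ range (J + 1), (rowLen D δ j - ∑ i, (m - rk J π (h i) j)) := by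
      obtain ⟨j, hj, hj0⟩ := exists_ne_zero_of_sum_ne_zero (by omega :
        ∑ j ∈ range (J + 1), (rowLen (D - 2 * e) δ j -
          ∑ i, (m - n i - n i - rk J π (h i) j)) ≠ 0)
      exact sum_lt_sum (fun j _ => by have := drop j; omega) ⟨j, hj, (drop j).resolve_left hj0⟩
    omega
  · have hbot : fat p (fun _ => m) D = ⊥ := by
      rw [← Submodule.finrank_eq_zero]
      omega
    have hbot' : fat p (fun _ => m) d = ⊥ := by
      rw [eq_bot_iff]
      intro G hG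
      rw [mem_fat] at hG
      have : X 2 ^ (D - d) * G ∈ fat p (fun _ => m) D := by
        refine mem_fat.2 ⟨?_, fun i => Ideal.mul_mem_left _ _ (hG.2 i)⟩
        have := (isHomogeneous_X_pow (R := ℂ) (2 : Fin 3) (D - d)).mul hG.1
        rwa [show D - d + d = D by omega] at this
      rw [hbot, Submodule.mem_bot] at this
      exact (mul_eq_zero.1 this).resolve_left (pow_ne_zero _ (X_ne_zero _))
    refine ⟨?_, fun _ _ _ _ _ _ _ _ => hbot'⟩
    have := Nat.choose_le_choose 2 (by omega : d + 2 ≤ D + 2)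
    rw [hbot', finrank_bot]
    omega

end Pool.Agent.P.MP_8707bd_ag
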